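import Mathlib

set_option autoImplicit false

/-!
# The top of the determinant spectrum (MP_ef01bd_co): definitions
-/

namespace Pool.Agent.TopDet

/-- The `(n+1) × (n+1)` integer matrix `[1 : D]`: the rows of `D` are the points
`R 0, …, R n` of `{0,1}^n`, and a first column of ones is adjoined. -/
def borderedMatrix {n : ℕ} (R : Fin (n + 1) → (Fin n → Bool)) :
    Matrix (Fin (n + 1)) (Fin (n + 1)) ℤ :=
  Matrix.of fun i j => Fin.cases 1 (fun k => if R i k then 1 else 0) j

/-- The set `S_n` of the values `|det [1 : D_R]|`, where `R` runs over the `(n+1)`-element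
subsets of `{0,1}^n` (listed injectively as the rows of `D_R`). -/
def detSpectrum (n : ℕ) : Set ℕ :=
  {v | ∃ R : Fin (n + 1) → (Fin n → Bool), Function.Injective R ∧
    (borderedMatrix R).det.natAbs = v}

/-- The number `N_n(v)` of the `(n+1)`-element subsets `R` of `{0,1}^n` with
`|det [1 : D_R]| = v`. -/
noncomputable def detCount (n v : ℕ) : ℕ :=
  Nat.card {R : Finset (Fin n → Bool) // ∃ r : Fin (n + 1) → (Fin n → Bool),
    Function.Injective r ∧ Finset.univ.image r = R ∧ (borderedMatrix r).det.natAbs = v}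

/-- All entries are `1` or `-1`. -/
def Sgn {N : ℕ} (A : Matrix (Fin N) (Fin N) ℤ) : Prop := ∀ i j, A i j = 1 ∨ A i j = -1

/-- Hadamard matrices. -/
def Had {N : ℕ} (A : Matrix (Fin N) (Fin N) ℤ) : Prop :=
  Sgn A ∧ A * A.transpose = (N : ℤ) • (1 : Matrix (Fin N) (Fin N) ℤ)

/-- The sign of one entry is changed. -/
def flip {N : ℕ} (A : Matrix (Fin N) (Fin N) ℤ) (i j : Fin N) : Matrix (Fin N) (Fin N) ℤ :=
  A.updateRow i (Function.update (A i) j (-(A i j)))

end Pool.Agent.TopDet
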