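import Pool.Agent.TopDet.Targets

set_option autoImplicit false

/-!
# BN1: one exceptional row
-/

namespace Pool.Agent.TopDet.BN1_

open Finset

/-- The numerical end of the proof, with `b = 1/m`. -/
lemma num_end (b l : ℝ) (hb0 : 0 < b) (hbl : b ≤ l) (hl1 : l < 1) :
    (1 - l) * Real.exp (l - (b - b ^ 2 / 4)) < (1 - b / 2) ^ 2 := by
  have hb1 : b < 1 := lt_of_le_of_lt hbl hl1
  set e : ℝ := b ^ 2 / 4 with he
  have he0 : 0 < e := by positivity
  have heb : e < b := by rw [he]; nlinarith
  have he1 : e < 1 := heb.trans hb1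
  -- (1 - l) * exp (l - b) ≤ 1 - b
  have h1 : (1 - l) * Real.exp (l - b) ≤ 1 - b := by
    have h2 : (1 - l) ≤ (1 - b) * Real.exp (-(l - b)) := by
      have h3 := Real.add_one_le_exp (-(l - b))
      have h4 : (1 - b) * (-(l - b) + 1) ≤ (1 - b) * Real.exp (-(l - b)) :=
        mul_le_mul_of_nonneg_left h3 (by linarith)
      nlinarith
    calc (1 - l) * Real.exp (l - b)
        ≤ ((1 - b) * Real.exp (-(l - b))) * Real.exp (l - b) :=
          mul_le_mul_of_nonneg_right h2 (Real.exp_pos _).le
      _ = 1 - b := by rw [mul_assoc, ← Real.exp_add]; simp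
  have h5 : Real.exp (l - (b - e)) = Real.exp (l - b) * Real.exp e := by
    rw [← Real.exp_add]; congr 1; ring
  rw [h5, ← mul_assoc]
  have h6 : (1 - e) * Real.exp e ≤ 1 := by
    have h7 := Real.add_one_le_exp (-e)
    calc (1 - e) * Real.exp e ≤ Real.exp (-e) * Real.exp e :=
          mul_le_mul_of_nonneg_right (by linarith) (Real.exp_pos _).le
      _ = 1 := by rw [← Real.exp_add]; simp
  have h8 : (1 - l) * Real.exp (l - b) * Real.exp e ≤ (1 - b) * Real.exp e :=
    mul_le_mul_of_nonneg_right h1 (Real.exp_pos _).le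
  refine lt_of_le_of_lt h8 ?_
  have h9 : (1 - b / 2) ^ 2 = 1 - b + e := by rw [he]; ring
  rw [h9]
  have h10 : (1 - e) * ((1 - b) * Real.exp e) < (1 - e) * (1 - b + e) := by
    have h11 : (1 - e) * ((1 - b) * Real.exp e) ≤ (1 - b) := by
      have := mul_le_mul_of_nonneg_left h6 (by linarith : (0 : ℝ) ≤ 1 - b)
      linarith [this]
    have h12 : (1 - b) < (1 - e) * (1 - b + e) := by nlinarith
    exact lt_of_le_of_lt h11 h12
  exact lt_of_mul_lt_mul_left h10 (by linarith)

end Pool.Agent.TopDet.BN1_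

namespace Pool.Agent.TopDet

open Finset

theorem p_BN1 : T_BN1 := by
  classical
  intro ι _ x m s hm hx hsum hlow hle hs
  obtain ⟨j, hj⟩ := hlow
  obtain ⟨i, hi⟩ := hs
  have hm0 : 0 < m := by linarith
  set b : ℝ := 1 / m with hb
  have hb0 : 0 < b := by positivity
  have hb1' : b ≤ 1 := by rw [hb, div_le_one hm0]; exact hm
  -- s ≥ 1
  have hs1 : 1 ≤ s := by
    by_contra h
    push Not at h
    have : ∑ i, x i < ∑ _i : ι, (0 : ℝ) :=
      Finset.sum_lt_sum_of_nonempty ⟨i, Finset.mem_univ i⟩ (fun t _ => by linarith [hle t])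
    simp only [Finset.sum_const_zero] at this
    linarith
  have hij : j ≠ i := by
    rintro rfl
    linarith
  have hl1 : -x j < 1 := by linarith [hx j]
  -- the product
  have hji : j ∈ (Finset.univ.erase i : Finset ι) := Finset.mem_erase.2 ⟨hij, Finset.mem_univ j⟩
  have hprod : ∏ t, (1 + x t) =
      (1 + x i) * ((1 + x j) * ∏ t ∈ (Finset.univ.erase i).erase j, (1 + x t)) := by
    rw [Finset.mul_prod_erase _ (fun t => 1 + x t) hji,
      Finset.mul_prod_erase _ (fun t => 1 + x t) (Finset.mem_univ i)]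
  have hsum2 : ∑ t ∈ (Finset.univ.erase i).erase j, x t = - x i - x j := by
    have e1 := Finset.add_sum_erase Finset.univ x (Finset.mem_univ i)
    have e2 := Finset.add_sum_erase (Finset.univ.erase i) x hji
    linarith
  have hrest : ∏ t ∈ (Finset.univ.erase i).erase j, (1 + x t) ≤ Real.exp (- x i - x j) := by
    rw [← hsum2, Real.exp_sum]
    refine Finset.prod_le_prod (fun t _ => by linarith [hx t]) (fun t _ => ?_)
    linarith [Real.add_one_le_exp (x t)]
  set l : ℝ := - x j with hl
  have hxi : x i = s - 1 := by linarith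
  have hs0 : 0 < s := by linarith
  have hP : ∏ t, (1 + x t) ≤ s * ((1 - l) * Real.exp (l - (s - 1))) := by
    rw [hprod, hi]
    have e1 : (1 + x j) = 1 - l := by rw [hl]; ring
    have e2 : - x i - x j = l - (s - 1) := by rw [hl, hxi]; ring
    rw [e1]
    rw [e2] at hrest
    exact mul_le_mul_of_nonneg_left (mul_le_mul_of_nonneg_left hrest (by linarith)) hs0.le
  have hk : 1 / m - 1 / (4 * m ^ 2) = b - b ^ 2 / 4 := by rw [hb]; field_simp
  have hks : (1 / (2 * m)) = b / 2 := by rw [hb]; field_simp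
  rw [hk, hks]
  set k : ℝ := b - b ^ 2 / 4 with hkdef
  have hk1 : k ≤ 1 := by rw [hkdef]; nlinarith
  have hfac : 0 ≤ 1 - k / s := by
    have : k / s ≤ 1 := by rw [div_le_one hs0]; linarith
    linarith
  have hstep : (∏ t, (1 + x t)) * (1 - k / s) ≤ (1 - l) * Real.exp (l - k) := by
    calc (∏ t, (1 + x t)) * (1 - k / s)
        ≤ (s * ((1 - l) * Real.exp (l - (s - 1)))) * (1 - k / s) :=
          mul_le_mul_of_nonneg_right hP hfac
      _ = ((1 - l) * Real.exp (l - (s - 1))) * (s - k) := by field_simp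
      _ ≤ ((1 - l) * Real.exp (l - (s - 1))) * Real.exp (s - 1 - k) := by
          refine mul_le_mul_of_nonneg_left ?_ (mul_nonneg (by linarith) (Real.exp_pos _).le)
          linarith [Real.add_one_le_exp (s - 1 - k)]
      _ = (1 - l) * Real.exp (l - k) := by
          rw [mul_assoc, ← Real.exp_add]; congr 2; ring
  exact lt_of_le_of_lt hstep (BN1_.num_end b l hb0 (by rw [hl]; linarith) (by linarith))

end Pool.Agent.TopDet
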