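import Pool.Agent.TopDet.Defs

set_option autoImplicit false

/-!
# The top of the determinant spectrum (MP_ef01bd_co): targets
(proofs in Blueprint.lean.txt)
-/

namespace Pool.Agent.TopDet

open Finset Matrix

/-! ### A. numbers -/

/-- CN: the numerical inequality for matrices with all inner products divisible by `4`. -/
def T_CN : Prop := ∀ (ι : Type) [Fintype ι] (x : ι → ℝ) (m : ℝ), 3 ≤ m → (∀ i, -1 < x i) →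
  ∑ i, x i = 0 → (∃ i, x i ≠ 0) →
  ∑ i, x i ^ 2 + ∑ i, x i ^ 3 ≤ m / 4 * (∑ i, x i ^ 2) ^ 2 →
  ∏ i, (1 + x i) < (1 - 1 / (2 * m)) ^ 2

/-- BN1: one exceptional row. -/
def T_BN1 : Prop := ∀ (ι : Type) [Fintype ι] (x : ι → ℝ) (m s : ℝ), 1 ≤ m → (∀ i, -1 < x i) →
  ∑ i, x i = 0 → (∃ i, x i ≤ -(1 / m)) → (∀ i, 1 + x i ≤ s) → (∃ i, 1 + x i = s) →
  (∏ i, (1 + x i)) * (1 - (1 / m - 1 / (4 * m ^ 2)) / s) < (1 - 1 / (2 * m)) ^ 2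

/-- BN2: at least two rows in both classes. -/
def T_BN2 : Prop := ∀ (ι : Type) [Fintype ι] (x : ι → ℝ) (m s κ : ℝ), 3 ≤ m → (∀ i, -1 < x i) →
  ∑ i, x i = 0 → 2 / m - 1 / m ^ 2 ≤ κ → (∀ i, 1 + x i ≤ s) → (∃ i, 1 + x i = s) →
  (∏ i, (1 + x i)) * Real.exp (-(κ / s)) < (1 - 1 / (2 * m)) ^ 2

/-! ### B. linear algebra -/

/-- EIG: eigenvalues of a positive definite matrix. -/
def T_EIG : Prop := ∀ (ι : Type) [Fintype ι] [DecidableEq ι] (S : Matrix ι ι ℝ), S.PosDef →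
  ∃ μ : ι → ℝ, (∀ i, 0 < μ i) ∧ S.det = ∏ i, μ i ∧ S.trace = ∑ i, μ i ∧
    (S * S).trace = ∑ i, μ i ^ 2 ∧ (S * S * S).trace = ∑ i, μ i ^ 3 ∧
    (∀ c : ℝ, 0 < c → (∀ i, μ i ≤ c) → ∀ v : ι → ℝ, v ⬝ᵥ v ≤ c * (v ⬝ᵥ (S⁻¹).mulVec v)) ∧
    ∀ c : ℝ, (∀ i, c ≤ μ i) → ∀ v : ι → ℝ, c * (v ⬝ᵥ v) ≤ v ⬝ᵥ S.mulVec v

/-- SCH: determinant bound from the Schur complement. -/
def T_SCH : Prop := ∀ (α β : Type) [Fintype α] [DecidableEq α] [Fintype β] [DecidableEq β]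
  (N c : ℝ) (P : Matrix α α ℝ) (X : Matrix α β ℝ) (Q : Matrix β β ℝ), 0 < N → 0 < c →
  (Matrix.fromBlocks P X Xᵀ Q).PosDef → (∀ j, Q j j = N) → (∀ i j, 2 ≤ |X i j|) →
  (∀ v : α → ℝ, v ⬝ᵥ v ≤ c * (v ⬝ᵥ (P⁻¹).mulVec v)) →
  0 < P.det ∧
  (Matrix.fromBlocks P X Xᵀ Q).det ≤ P.det * (N ^ Fintype.card β *
    Real.exp (-(4 * Fintype.card α * Fintype.card β / (N * c)))) ∧
  (Fintype.card β = 1 →
    (Matrix.fromBlocks P X Xᵀ Q).det ≤ P.det * (N - 4 * Fintype.card α / c))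

/-- SC1: the case of orthogonal rows. -/
def T_SC1 : Prop := ∀ (α β : Type) [Fintype α] [DecidableEq α] [Fintype β] [DecidableEq β]
  (N : ℝ) (X : Matrix α β ℝ) (Q : Matrix β β ℝ), 0 < N → Fintype.card β = 1 →
  (∀ j, Q j j = N) → (∀ i j, 2 ≤ |X i j|) →
  (Matrix.fromBlocks (N • (1 : Matrix α α ℝ)) X Xᵀ Q).det ≤
    N ^ Fintype.card α * (N - 4 * Fintype.card α / N) ∧
  ((Matrix.fromBlocks (N • (1 : Matrix α α ℝ)) X Xᵀ Q).det =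
    N ^ Fintype.card α * (N - 4 * Fintype.card α / N) → ∀ i j, |X i j| = 2)

/-- MXB (from EIG, SCH, SC1, BN1, BN2): two classes, abstract form. -/
def T_MXB : Prop := ∀ (m : ℕ) (α β : Type) [Fintype α] [DecidableEq α] [Fintype β]
  [DecidableEq β] (P : Matrix α α ℝ) (X : Matrix α β ℝ) (Q : Matrix β β ℝ), 3 ≤ m →
  Fintype.card α + Fintype.card β = 4 * m → 1 ≤ Fintype.card β →
  Fintype.card β ≤ Fintype.card α → (Matrix.fromBlocks P X Xᵀ Q).PosDef →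
  (∀ i, P i i = 4 * m) → (∀ i j, i ≠ j → ∃ z : ℤ, P i j = 4 * z) → (∀ j, Q j j = 4 * m) →
  (∀ i j, 2 ≤ |X i j|) →
  (Matrix.fromBlocks P X Xᵀ Q).det ≤ (4 * m - 2) ^ 2 * (4 * m) ^ (4 * m - 2) ∧
  ((Matrix.fromBlocks P X Xᵀ Q).det = (4 * m - 2) ^ 2 * (4 * m) ^ (4 * m - 2) →
    Fintype.card β = 1 ∧ P = (4 * m : ℝ) • (1 : Matrix α α ℝ) ∧ ∀ i j, |X i j| = 2)

/-! ### C. matrices with entries `1` and `-1` -/

/-- PAR: the inner products modulo `4`. -/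
def T_PAR : Prop := ∀ (m : ℕ) (A : Matrix (Fin (4 * m)) (Fin (4 * m)) ℤ), Sgn A →
  ∃ p : Fin (4 * m) → Prop, ∀ i j, ((p i ↔ p j) → (4 : ℤ) ∣ (A * Aᵀ) i j) ∧
    (¬ (p i ↔ p j) → (4 : ℤ) ∣ (A * Aᵀ) i j - 2)

/-- MIX (from PAR, MXB): rows of both classes. -/
def T_MIX : Prop := ∀ (m : ℕ) (A : Matrix (Fin (4 * m)) (Fin (4 * m)) ℤ), 3 ≤ m → Sgn A →
  A.det ≠ 0 → (∃ i j, ¬ (4 : ℤ) ∣ (A * Aᵀ) i j) →
  (A.det : ℝ) ^ 2 ≤ (4 * m - 2) ^ 2 * (4 * m) ^ (4 * m - 2) ∧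
  ((A.det : ℝ) ^ 2 = (4 * m - 2) ^ 2 * (4 * m) ^ (4 * m - 2) → ∃ i₀ : Fin (4 * m),
    (∀ j k, j ≠ i₀ → k ≠ i₀ → j ≠ k → (A * Aᵀ) j k = 0) ∧ ∀ j, j ≠ i₀ → |(A * Aᵀ) i₀ j| = 2)

/-- SAME (from EIG, CN): all inner products of rows and of columns divisible by `4`. -/
def T_SAME : Prop := ∀ (m : ℕ) (A : Matrix (Fin (4 * m)) (Fin (4 * m)) ℤ), 3 ≤ m → Sgn A →
  A.det ≠ 0 → (∀ i j, (4 : ℤ) ∣ (A * Aᵀ) i j) → (∀ i j, (4 : ℤ) ∣ (Aᵀ * A) i j) → ¬ Had A →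
  (A.det : ℝ) ^ 2 < (4 * m - 2) ^ 2 * (4 * m) ^ (4 * m - 2)

/-- CMP: completion of `N - 1` orthogonal rows. -/
def T_CMP : Prop := ∀ (m : ℕ) (A : Matrix (Fin (4 * m)) (Fin (4 * m)) ℤ) (i₀ : Fin (4 * m)),
  1 ≤ m → Sgn A → (∀ j k, j ≠ i₀ → k ≠ i₀ → j ≠ k → (A * Aᵀ) j k = 0) →
  (∀ j, j ≠ i₀ → |(A * Aᵀ) i₀ j| = 2) → ∃ B j, Had B ∧ A = flip B i₀ j

/-- HD: the determinants of Hadamard matrices and of their modifications. -/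
def T_HD : Prop := ∀ (m : ℕ) (B : Matrix (Fin (4 * m)) (Fin (4 * m)) ℤ), 1 ≤ m → Had B →
  Had Bᵀ ∧ B.det.natAbs = (4 * m) ^ (2 * m) ∧
  ∀ i j, Sgn (flip B i j) ∧ (flip B i j).det.natAbs = (4 * m - 2) * (4 * m) ^ (2 * m - 1)

/-- CLS (from MIX, SAME, CMP, HD): matrices with large determinant. -/
def T_CLS : Prop := ∀ (m : ℕ) (A : Matrix (Fin (4 * m)) (Fin (4 * m)) ℤ), 3 ≤ m → Sgn A →
  (4 * m - 2) * (4 * m) ^ (2 * m - 1) ≤ A.det.natAbs →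
  Had A ∨ ∃ B i j, Had B ∧ A = flip B i j

/-! ### D. the spectrum -/

/-- TRA: matrices with entries `0, 1` and matrices with entries `1, -1`. -/
def T_TRA : Prop := ∀ n v : ℕ, v ≠ 0 → (v ∈ detSpectrum n ↔
  ∃ A : Matrix (Fin (n + 1)) (Fin (n + 1)) ℤ, Sgn A ∧ A.det.natAbs = 2 ^ n * v)

/-- TOP (from CLS, HD, TRA): the top of the spectrum. -/
def T_TOP : Prop := ∀ m n : ℕ, 3 ≤ m → n + 1 = 4 * m →
  ((∃ B : Matrix (Fin (4 * m)) (Fin (4 * m)) ℤ, Had B) →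
    detSpectrum n ∩ Set.Ici ((2 * m - 1) * m ^ (2 * m - 1)) =
      {(2 * m - 1) * m ^ (2 * m - 1), 2 * m ^ (2 * m)}) ∧
  ((¬ ∃ B : Matrix (Fin (4 * m)) (Fin (4 * m)) ℤ, Had B) →
    detSpectrum n ∩ Set.Ici ((2 * m - 1) * m ^ (2 * m - 1)) = ∅)

/-- CT1: the number of matrices with entries `1, -1`. -/
def T_CT1 : Prop := ∀ n v : ℕ, v ≠ 0 →
  Nat.card {A : Matrix (Fin (n + 1)) (Fin (n + 1)) ℤ // Sgn A ∧ A.det.natAbs = 2 ^ n * v} =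
    2 ^ (n + 1) * ((n + 1).factorial * detCount n v)

/-- CT2 (from CLS, HD): the matrices with the two largest determinants. -/
def T_CT2 : Prop := ∀ m : ℕ, 3 ≤ m →
  Nat.card {A : Matrix (Fin (4 * m)) (Fin (4 * m)) ℤ //
    Sgn A ∧ A.det.natAbs = (4 * m - 2) * (4 * m) ^ (2 * m - 1)} =
  (4 * m) ^ 2 * Nat.card {A : Matrix (Fin (4 * m)) (Fin (4 * m)) ℤ //
    Sgn A ∧ A.det.natAbs = (4 * m) ^ (2 * m)}

/-- CNT (from CT1, CT2): the number of the subsets with the two largest determinants. -/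
def T_CNT : Prop := ∀ m n : ℕ, 3 ≤ m → n + 1 = 4 * m →
  detCount n ((2 * m - 1) * m ^ (2 * m - 1)) = 16 * m ^ 2 * detCount n (2 * m ^ (2 * m))

end Pool.Agent.TopDet
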