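import Mathlib
import Pool.Agent.TopDet.Targets

set_option autoImplicit false

/-!
# The top of the determinant spectrum: a real inequality (BN2)
-/

namespace Pool.Agent.TopDet

open Finset Matrix

namespace BN2_

theorem exp_lt (u : ℝ) (hu0 : 0 < u) (hu : u ≤ 1 / 6) :
    Real.exp (-(111 / 50 * u)) < (1 - u) ^ 2 := by
  have h1 : 1 + (111 / 100 * u) + (111 / 100 * u) ^ 2 / 2 ≤ Real.exp (111 / 100 * u) :=
    Real.quadratic_le_exp_of_nonneg (by positivity)
  have h2 : 1 < (1 - u) * Real.exp (111 / 100 * u) := by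
    have h3 : (1 - u) * (1 + (111 / 100 * u) + (111 / 100 * u) ^ 2 / 2) ≤
        (1 - u) * Real.exp (111 / 100 * u) := mul_le_mul_of_nonneg_left h1 (by linarith)
    have h4 : 1 < (1 - u) * (1 + (111 / 100 * u) + (111 / 100 * u) ^ 2 / 2) := by
      nlinarith [mul_pos hu0 hu0, mul_nonneg hu0.le (sub_nonneg.mpr hu),
        mul_nonneg (mul_pos hu0 hu0).le (sub_nonneg.mpr hu)]
    linarith
  have h5 : Real.exp (-(111 / 100 * u)) < 1 - u := by
    rw [Real.exp_neg, inv_lt_iff_one_lt_mul₀ (Real.exp_pos _)]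
    exact h2
  have h6 : Real.exp (-(111 / 50 * u)) = Real.exp (-(111 / 100 * u)) ^ 2 := by
    rw [← Real.exp_nat_mul]; congr 1; push_cast; ring
  rw [h6]
  exact pow_lt_pow_left₀ h5 (Real.exp_pos _).le two_ne_zero

theorem log_le (s : ℝ) (hs : 1 ≤ s) : Real.log s ≤ (s - s⁻¹) / 2 := by
  have hs0 : 0 < s := by linarith
  have h := Real.self_le_sinh_iff.mpr (Real.log_nonneg hs)
  rw [Real.sinh_eq, Real.exp_log hs0, Real.exp_neg, Real.exp_log hs0] at h
  exact h

theorem prod_le (ι : Type) [Fintype ι] [DecidableEq ι] (x : ι → ℝ) (hx : ∀ i, -1 < x i)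
    (hsum : ∑ i, x i = 0) (i : ι) :
    ∏ j, (1 + x j) ≤ (1 + x i) * Real.exp (-(x i)) := by
  rw [← mul_prod_erase univ _ (mem_univ i)]
  refine mul_le_mul_of_nonneg_left ?_ (by linarith [hx i])
  have h1 : ∏ j ∈ univ.erase i, (1 + x j) ≤ ∏ j ∈ univ.erase i, Real.exp (x j) := by
    refine prod_le_prod (fun j _ => by linarith [hx j]) fun j _ => ?_
    linarith [Real.add_one_le_exp (x j)]
  rw [← Real.exp_sum] at h1
  have h2 : ∑ j ∈ univ.erase i, x j = -(x i) := by
    have := add_sum_erase univ x (mem_univ i)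
    linarith
  rwa [h2] at h1

end BN2_

theorem p_BN2 : T_BN2 := by
  intro ι _ x m s κ hm hx hsum hκ hs1 hs2
  classical
  obtain ⟨i, hi⟩ := hs2
  -- `s` is at least one
  have hs : 1 ≤ s := by
    by_contra hcon
    push Not at hcon
    have h1 : ∀ j, x j ≤ s - 1 := fun j => by linarith [hs1 j]
    have h2 : ∑ j, x j ≤ ∑ _j : ι, (s - 1) := sum_le_sum fun j _ => h1 j
    rw [hsum, sum_const, nsmul_eq_mul] at h2
    have h3 : (0 : ℝ) < (univ : Finset ι).card := by
      exact_mod_cast card_pos.mpr ⟨i, mem_univ i⟩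
    nlinarith
  have hs0 : 0 < s := by linarith
  have hm0 : 0 < m := by linarith
  set u : ℝ := 1 / (2 * m) with hu
  have hu0 : 0 < u := by positivity
  have hu6 : u ≤ 1 / 6 := by
    rw [hu, div_le_div_iff₀ (by positivity) (by norm_num)]; linarith
  have hκ' : 4 * u - 4 * u ^ 2 ≤ κ := by
    refine le_trans (le_of_eq ?_) hκ
    rw [hu]; field_simp; ring
  have hxi : x i = s - 1 := by linarith
  have hp := BN2_.prod_le ι x hx hsum i
  rw [hi, hxi] at hp
  have hlog := BN2_.log_le s hs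
  -- the main inequality
  have hmain : 111 / 50 * u ≤ (s - 1) - Real.log s + κ / s := by
    have h1 : (s - 1) - (s - s⁻¹) / 2 + κ / s = ((s - 1) ^ 2 / 2 + κ) / s := by
      field_simp; ring
    have h2 : 111 / 50 * u ≤ ((s - 1) ^ 2 / 2 + κ) / s := by
      rw [le_div_iff₀ hs0]
      nlinarith [sq_nonneg (s - (1 + 111 / 50 * u)), mul_nonneg hu0.le (sub_nonneg.mpr hu6)]
    linarith
  have hlt := BN2_.exp_lt u hu0 hu6
  calc (∏ j, (1 + x j)) * Real.exp (-(κ / s))
      ≤ s * Real.exp (-(s - 1)) * Real.exp (-(κ / s)) :=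
        mul_le_mul_of_nonneg_right hp (Real.exp_pos _).le
    _ = Real.exp (-((s - 1) - Real.log s + κ / s)) := by
        rw [show -((s - 1) - Real.log s + κ / s) = Real.log s + -(s - 1) + -(κ / s) by ring,
          Real.exp_add, Real.exp_add, Real.exp_log hs0]
    _ ≤ Real.exp (-(111 / 50 * u)) := Real.exp_le_exp.mpr (by linarith)
    _ < (1 - u) ^ 2 := hlt

end Pool.Agent.TopDet
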