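import Pool.Agent.TopDet.Targets

set_option autoImplicit false

/-!
# The top of the determinant spectrum: matrices with large determinant
-/

namespace Pool.Agent.TopDet

open Finset Matrix

namespace CLS_

theorem flip_apply {N : ℕ} (A : Matrix (Fin N) (Fin N) ℤ) (i j k l : Fin N) :
    flip A i j k l = if k = i ∧ l = j then -(A i j) else A k l := by
  unfold flip
  rw [Matrix.updateRow_apply]
  by_cases hk : k = i
  · subst hk
    by_cases hl : l = j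
    · subst hl
      simp
    · simp [hl]
  · simp [hk]

theorem flip_transpose {N : ℕ} (A : Matrix (Fin N) (Fin N) ℤ) (i j : Fin N) :
    (flip A i j)ᵀ = flip Aᵀ j i := by
  ext k l
  rw [Matrix.transpose_apply, flip_apply, flip_apply]
  by_cases h : k = j ∧ l = i
  · rw [if_pos h, if_pos ⟨h.2, h.1⟩, Matrix.transpose_apply]
  · rw [if_neg h, if_neg (fun h' => h ⟨h'.2, h'.1⟩), Matrix.transpose_apply]

theorem bound {m : ℕ} (hm : 3 ≤ m) {d : ℤ} (hd : (4 * m - 2) * (4 * m) ^ (2 * m - 1) ≤ d.natAbs) :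
    d ≠ 0 ∧ (4 * (m : ℝ) - 2) ^ 2 * (4 * (m : ℝ)) ^ (4 * m - 2) ≤ (d : ℝ) ^ 2 := by
  have hpos : 0 < (4 * m - 2) * (4 * m) ^ (2 * m - 1) :=
    Nat.mul_pos (by omega) (Nat.pow_pos (by omega))
  constructor
  · intro h
    rw [h, Int.natAbs_zero] at hd
    omega
  · have h1 : (((4 * m - 2) * (4 * m) ^ (2 * m - 1) : ℕ) : ℝ) ≤ ((d.natAbs : ℕ) : ℝ) := by
      exact_mod_cast hd
    have h2 : ((d.natAbs : ℕ) : ℝ) = |(d : ℝ)| := by
      rw [Nat.cast_natAbs, Int.cast_abs]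
    rw [h2] at h1
    have h3 : (((4 * m - 2) * (4 * m) ^ (2 * m - 1) : ℕ) : ℝ)
        = (4 * (m : ℝ) - 2) * (4 * (m : ℝ)) ^ (2 * m - 1) := by
      rw [Nat.cast_mul, Nat.cast_sub (by omega), Nat.cast_pow]
      push_cast
      ring
    rw [h3] at h1
    have hm' : (3 : ℝ) ≤ m := by exact_mod_cast hm
    have h4 : 0 ≤ (4 * (m : ℝ) - 2) * (4 * (m : ℝ)) ^ (2 * m - 1) :=
      mul_nonneg (by linarith) (by positivity)
    have h5 := pow_le_pow_left₀ h4 h1 2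
    rw [sq_abs, mul_pow, ← pow_mul] at h5
    have h6 : (2 * m - 1) * 2 = 4 * m - 2 := by omega
    rwa [h6] at h5

end CLS_

open CLS_ in
theorem p_CLS (h1 : T_MIX) (h2 : T_SAME) (h3 : T_CMP) (h4 : T_HD) : T_CLS := by
  intro m A hm hA hd
  obtain ⟨hd0, hb⟩ := bound hm hd
  have key : ∀ C : Matrix (Fin (4 * m)) (Fin (4 * m)) ℤ, Sgn C → C.det = A.det →
      (∃ i j, ¬ (4 : ℤ) ∣ (C * Cᵀ) i j) → ∃ B i j, Had B ∧ C = flip B i j := by
    intro C hC hdet hex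
    obtain ⟨ha, hb'⟩ := h1 m C hm hC (by rw [hdet]; exact hd0) hex
    rw [hdet] at ha hb'
    obtain ⟨i0, h5, h6⟩ := hb' (le_antisymm ha hb)
    obtain ⟨B, j, hB, hCB⟩ := h3 m C i0 (by omega) hC h5 h6
    exact ⟨B, i0, j, hB, hCB⟩
  by_cases hc1 : ∃ i j, ¬ (4 : ℤ) ∣ (A * Aᵀ) i j
  · exact Or.inr (key A hA rfl hc1)
  · by_cases hc2 : ∃ i j, ¬ (4 : ℤ) ∣ (Aᵀ * A) i j
    · right
      obtain ⟨B, i, j, hB, hAB⟩ := key Aᵀ (fun i j => hA j i) (Matrix.det_transpose A)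
        (by rwa [Matrix.transpose_transpose])
      refine ⟨Bᵀ, j, i, (h4 m B (by omega) hB).1, ?_⟩
      rw [← flip_transpose, ← hAB, Matrix.transpose_transpose]
    · left
      by_contra hH
      push Not at hc1 hc2
      have h5 := h2 m A hm hA hd0 hc1 hc2 hH
      exact absurd h5 (not_lt.2 hb)

end Pool.Agent.TopDet
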