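import Pool.Agent.TopDet.Targets

set_option autoImplicit false

/-!
# TopDet, target CMP: completion of `N - 1` orthogonal rows
-/

namespace Pool.Agent.TopDet

open Finset Matrix

namespace CMP_

variable {N : ℕ}

theorem mul_t (A : Matrix (Fin N) (Fin N) ℤ) (j k : Fin N) :
    (A * Aᵀ) j k = ∑ l, A j l * A k l := by
  simp [Matrix.mul_apply]

theorem sq_sgn {A : Matrix (Fin N) (Fin N) ℤ} (h : Sgn A) (i j : Fin N) :
    A i j * A i j = 1 := by
  rcases h i j with h | h <;> rw [h] <;> norm_num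

/-- a sum of `N` signs equal to `N - 2` has exactly one term `-1` -/
theorem one_neg (z : Fin N → ℤ) (hz : ∀ l, z l = 1 ∨ z l = -1) (hs : ∑ l, z l = (N : ℤ) - 2) :
    ∃ j, z j = -1 ∧ ∀ l, l ≠ j → z l = 1 := by
  have h1 : ∑ l, (1 - z l) = 2 := by
    rw [Finset.sum_sub_distrib, hs]
    simp
  have h2 : ∃ j, z j = -1 := by
    by_contra hcon
    push Not at hcon
    have h3 : ∑ l, (1 - z l) = 0 := Finset.sum_eq_zero (fun l _ => by
      rcases hz l with h | h
      · rw [h]; norm_num
      · exact absurd h (hcon l))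
    omega
  obtain ⟨j, hj⟩ := h2
  refine ⟨j, hj, fun l hl => ?_⟩
  rcases hz l with h | h
  · exact h
  · exfalso
    have h4 : (1 - z j) + (1 - z l) ≤ ∑ l, (1 - z l) := by
      have h5 : ∑ i ∈ ({j, l} : Finset (Fin N)), (1 - z i) ≤ ∑ i, (1 - z i) := by
        refine Finset.sum_le_sum_of_subset_of_nonneg (Finset.subset_univ _) (fun i _ _ => ?_)
        rcases hz i with h | h <;> rw [h] <;> norm_num
      rwa [Finset.sum_pair (Ne.symm hl)] at h5
    rw [h1, hj, h] at h4
    norm_num at h4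

theorem core (hN : 4 ≤ N) (A : Matrix (Fin N) (Fin N) ℤ) (i₀ : Fin N) (hA : Sgn A)
    (horth : ∀ j k, j ≠ i₀ → k ≠ i₀ → j ≠ k → (A * Aᵀ) j k = 0)
    (htwo : ∀ j, j ≠ i₀ → |(A * Aᵀ) i₀ j| = 2) : ∃ B j, Had B ∧ A = flip B i₀ j := by
  have hN4 : (4 : ℤ) ≤ (N : ℤ) := by exact_mod_cast hN
  set g : Fin N → Fin N → ℤ := fun j k => ∑ l, A j l * A k l with hg
  have hgm : ∀ j k, (A * Aᵀ) j k = g j k := fun j k => mul_t A j k
  have hgs : ∀ j k, g j k = g k j := fun j k => by
    simp only [hg]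
    exact Finset.sum_congr rfl (fun l _ => mul_comm _ _)
  have hgd : ∀ j, g j j = N := fun j => by
    simp only [hg]
    rw [Finset.sum_congr rfl (fun l _ => sq_sgn hA j l)]
    simp
  have hg0 : ∀ j k, j ≠ i₀ → k ≠ i₀ → j ≠ k → g j k = 0 := fun j k h1 h2 h3 => by
    rw [← hgm]
    exact horth j k h1 h2 h3
  have hg2 : ∀ j, j ≠ i₀ → g i₀ j * g i₀ j = 4 := fun j hj => by
    have h1 := htwo j hj
    rw [hgm] at h1
    have h2 : |g i₀ j| * |g i₀ j| = 4 := by rw [h1]; norm_num
    rwa [abs_mul_abs_self] at h2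
  set y : Fin N → ℤ := fun l => (N : ℤ) * A i₀ l - ∑ j ∈ univ.erase i₀, g i₀ j * A j l with hy
  -- general inner product with `y`
  have hyv : ∀ v : Fin N → ℤ, ∑ l, y l * v l = (N : ℤ) * ∑ l, A i₀ l * v l -
      ∑ j ∈ univ.erase i₀, g i₀ j * ∑ l, A j l * v l := by
    intro v
    have h1 : ∀ l, y l * v l = (N : ℤ) * (A i₀ l * v l) -
        ∑ j ∈ univ.erase i₀, g i₀ j * (A j l * v l) := by
      intro l
      simp only [hy]
      rw [sub_mul, Finset.sum_mul]
      congr 1
      · ring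
      · exact Finset.sum_congr rfl (fun j _ => by ring)
    rw [Finset.sum_congr rfl (fun l _ => h1 l), Finset.sum_sub_distrib, ← Finset.mul_sum,
      Finset.sum_comm]
    congr 1
    exact Finset.sum_congr rfl (fun j _ => by rw [Finset.mul_sum])
  have hy1 : ∀ k, k ≠ i₀ → ∑ l, y l * A k l = 0 := by
    intro k hk
    rw [hyv]
    have h1 : ∑ j ∈ univ.erase i₀, g i₀ j * ∑ l, A j l * A k l = g i₀ k * N := by
      rw [Finset.sum_eq_single k]
      · change g i₀ k * g k k = _
        rw [hgd]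
      · intro j hj hjk
        change g i₀ j * g j k = 0
        rw [hg0 j k (Finset.ne_of_mem_erase hj) hk hjk, mul_zero]
      · intro h
        exact absurd (Finset.mem_erase.2 ⟨hk, Finset.mem_univ k⟩) h
    rw [h1]
    change (N : ℤ) * g i₀ k - g i₀ k * N = 0
    ring
  have hcard : (((univ.erase i₀ : Finset (Fin N)).card : ℕ) : ℤ) = (N : ℤ) - 1 := by
    rw [Finset.card_erase_of_mem (Finset.mem_univ i₀), Finset.card_univ, Fintype.card_fin]
    have : 1 ≤ N := by omega
    push_cast [this]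
    ring
  have hy2 : ∑ l, y l * A i₀ l = ((N : ℤ) - 2) ^ 2 := by
    rw [hyv]
    have h1 : ∑ j ∈ univ.erase i₀, g i₀ j * ∑ l, A j l * A i₀ l = ((N : ℤ) - 1) * 4 := by
      rw [← hcard, ← nsmul_eq_mul, ← Finset.sum_const]
      refine Finset.sum_congr rfl (fun j hj => ?_)
      change g i₀ j * g j i₀ = 4
      rw [hgs j i₀]
      exact hg2 j (Finset.ne_of_mem_erase hj)
    rw [h1]
    change (N : ℤ) * g i₀ i₀ - _ = _
    rw [hgd]
    ring
  have hy3 : ∑ l, y l * y l = (N : ℤ) * ((N : ℤ) - 2) ^ 2 := by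
    rw [hyv]
    have h0 : ∀ j, ∑ l, A j l * y l = ∑ l, y l * A j l := fun j =>
      Finset.sum_congr rfl (fun l _ => mul_comm _ _)
    rw [h0, hy2, Finset.sum_eq_zero, sub_zero]
    intro j hj
    rw [h0, hy1 j (Finset.ne_of_mem_erase hj), mul_zero]
  -- the rational matrix
  have hq : ((N : ℚ) - 2) ≠ 0 := by
    have : (4 : ℚ) ≤ (N : ℚ) := by exact_mod_cast hN4
    linarith
  have hq0 : (N : ℚ) ≠ 0 := by
    have : (4 : ℚ) ≤ (N : ℚ) := by exact_mod_cast hN4
    linarith
  set M : Matrix (Fin N) (Fin N) ℚ :=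
    Matrix.of (fun j l => if j = i₀ then (y l : ℚ) / ((N : ℚ) - 2) else (A j l : ℚ)) with hM
  have hMM : M * Mᵀ = (N : ℚ) • (1 : Matrix (Fin N) (Fin N) ℚ) := by
    ext j k
    rw [Matrix.mul_apply, Matrix.smul_apply, smul_eq_mul]
    simp only [Matrix.transpose_apply, hM, Matrix.of_apply]
    by_cases hj : j = i₀
    · by_cases hk : k = i₀
      · subst hj
        subst hk
        simp only [if_true, Matrix.one_apply_eq, mul_one]
        have h1 : ∑ l, (y l : ℚ) / ((N : ℚ) - 2) * ((y l : ℚ) / ((N : ℚ) - 2)) =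
            ((∑ l, y l * y l : ℤ) : ℚ) / ((N : ℚ) - 2) ^ 2 := by
          push_cast
          rw [Finset.sum_div]
          exact Finset.sum_congr rfl (fun l _ => by rw [div_mul_div_comm, sq])
        rw [h1, hy3]
        push_cast
        field_simp
      · subst hj
        simp only [if_true, hk, if_false]
        rw [Matrix.one_apply_ne (Ne.symm hk), mul_zero]
        have h1 : ∑ l, (y l : ℚ) / ((N : ℚ) - 2) * (A k l : ℚ) =
            ((∑ l, y l * A k l : ℤ) : ℚ) / ((N : ℚ) - 2) := by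
          push_cast
          rw [Finset.sum_div]
          exact Finset.sum_congr rfl (fun l _ => by rw [div_mul_eq_mul_div])
        rw [h1, hy1 k hk]
        simp
    · by_cases hk : k = i₀
      · subst hk
        simp only [if_true, hj, if_false]
        rw [Matrix.one_apply_ne hj, mul_zero]
        have h1 : ∑ l, (A j l : ℚ) * ((y l : ℚ) / ((N : ℚ) - 2)) =
            ((∑ l, y l * A j l : ℤ) : ℚ) / ((N : ℚ) - 2) := by
          push_cast
          rw [Finset.sum_div]
          exact Finset.sum_congr rfl (fun l _ => by rw [mul_div_assoc', mul_comm])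
        rw [h1, hy1 j hj]
        simp
      · simp only [hj, hk, if_false]
        have h1 : ∑ l, (A j l : ℚ) * (A k l : ℚ) = ((g j k : ℤ) : ℚ) := by
          simp only [hg]
          push_cast
          rfl
        rw [h1]
        by_cases hjk : j = k
        · subst hjk
          rw [hgd, Matrix.one_apply_eq]
          simp
        · rw [hg0 j k hj hk hjk, Matrix.one_apply_ne hjk]
          simp
  have hMM' : Mᵀ * M = (N : ℚ) • (1 : Matrix (Fin N) (Fin N) ℚ) := by
    have h1 : M * ((N : ℚ)⁻¹ • Mᵀ) = 1 := by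
      rw [Matrix.mul_smul, hMM, smul_smul, inv_mul_cancel₀ hq0, one_smul]
    have h2 := mul_eq_one_comm.1 h1
    rw [Matrix.smul_mul] at h2
    rw [← h2, smul_smul, mul_inv_cancel₀ hq0, one_smul]
  have hyl : ∀ l, y l = ((N : ℤ) - 2) ∨ y l = -((N : ℤ) - 2) := by
    intro l
    have h1 := congrFun (congrFun hMM' l) l
    rw [Matrix.mul_apply, Matrix.smul_apply, smul_eq_mul, Matrix.one_apply_eq, mul_one,
      ← Finset.add_sum_erase _ _ (Finset.mem_univ i₀)] at h1
    have h2 : ∑ j ∈ univ.erase i₀, Mᵀ l j * M j l = (N : ℚ) - 1 := by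
      have h3 : ((N : ℚ) - 1) = (((univ.erase i₀ : Finset (Fin N)).card : ℕ) : ℚ) := by
        have h4 : ((((univ.erase i₀ : Finset (Fin N)).card : ℕ) : ℤ) : ℚ) =
          (((N : ℤ) - 1 : ℤ) : ℚ) := by rw [hcard]
        push_cast at h4
        exact h4.symm
      rw [h3, ← mul_one (((univ.erase i₀ : Finset (Fin N)).card : ℕ) : ℚ), ← nsmul_eq_mul,
        ← Finset.sum_const]
      refine Finset.sum_congr rfl (fun j hj => ?_)
      simp only [Matrix.transpose_apply, hM, Matrix.of_apply, Finset.ne_of_mem_erase hj,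
        if_false]
      exact_mod_cast sq_sgn hA j l
    rw [h2] at h1
    simp only [Matrix.transpose_apply, hM, Matrix.of_apply, if_true] at h1
    have h5 : (y l : ℚ) / ((N : ℚ) - 2) * ((y l : ℚ) / ((N : ℚ) - 2)) = 1 := by linarith
    have h6 : (y l : ℚ) * (y l : ℚ) = ((N : ℚ) - 2) * ((N : ℚ) - 2) := by
      field_simp at h5
      linarith
    have h7 : y l * y l = ((N : ℤ) - 2) * ((N : ℤ) - 2) := by exact_mod_cast h6
    exact mul_self_eq_mul_self_iff.1 h7
  -- the signs
  have hN2 : (N : ℤ) - 2 ≠ 0 := by omega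
  have hch : ∀ l, ∃ h : ℤ, (h = 1 ∨ h = -1) ∧ y l = ((N : ℤ) - 2) * h := by
    intro l
    rcases hyl l with h | h
    · exact ⟨1, Or.inl rfl, by rw [h]; ring⟩
    · exact ⟨-1, Or.inr rfl, by rw [h]; ring⟩
  choose h hh1 hh2 using hch
  have hdot : ∀ v : Fin N → ℤ, ((N : ℤ) - 2) * ∑ l, h l * v l = ∑ l, y l * v l := by
    intro v
    rw [Finset.mul_sum]
    exact Finset.sum_congr rfl (fun l _ => by rw [hh2 l]; ring)
  have hha : ∑ l, h l * A i₀ l = (N : ℤ) - 2 := by
    have h1 := hdot (fun l => A i₀ l)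
    rw [hy2] at h1
    have h2 : ((N : ℤ) - 2) * ∑ l, h l * A i₀ l = ((N : ℤ) - 2) * ((N : ℤ) - 2) := by
      rw [h1]; ring
    exact mul_left_cancel₀ hN2 h2
  have hhk : ∀ k, k ≠ i₀ → ∑ l, h l * A k l = 0 := by
    intro k hk
    have h1 := hdot (fun l => A k l)
    rw [hy1 k hk] at h1
    exact (mul_eq_zero.1 h1).resolve_left hN2
  obtain ⟨j₀, hj1, hj2⟩ := one_neg (fun l => h l * A i₀ l) (fun l => by
    rcases hh1 l with h1 | h1 <;> rcases hA i₀ l with h2 | h2 <;> simp [h1, h2]) hha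
  have hAj : A i₀ j₀ = -h j₀ := by
    rcases hh1 j₀ with h1 | h1 <;> rcases hA i₀ j₀ with h2 | h2 <;> rw [h1, h2] <;>
      simp [h1, h2] at hj1 ⊢
  have hAl : ∀ l, l ≠ j₀ → A i₀ l = h l := by
    intro l hl
    have h3 := hj2 l hl
    rcases hh1 l with h1 | h1 <;> rcases hA i₀ l with h2 | h2 <;> rw [h1, h2] <;>
      simp [h1, h2] at h3 ⊢
  refine ⟨A.updateRow i₀ h, j₀, ⟨?_, ?_⟩, ?_⟩
  · intro i j
    by_cases hi : i = i₀
    · subst hi
      rw [Matrix.updateRow_self]
      exact hh1 j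
    · rw [Matrix.updateRow_ne hi]
      exact hA i j
  · have hhh : ∑ l, h l * h l = (N : ℤ) := by
      rw [Finset.sum_congr rfl (fun l _ => by
        rcases hh1 l with h1 | h1 <;> rw [h1] <;> norm_num : ∀ l ∈ univ, h l * h l = 1)]
      simp
    ext j k
    change (A.updateRow i₀ h * (A.updateRow i₀ h)ᵀ) j k = _
    rw [mul_t, Matrix.smul_apply, smul_eq_mul]
    by_cases hj : j = i₀
    · subst hj
      by_cases hk : k = j
      · subst hk
        simp only [Matrix.updateRow_self, Matrix.one_apply_eq, mul_one]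
        exact hhh
      · simp only [Matrix.updateRow_self, Matrix.updateRow_ne hk]
        rw [hhk k hk, Matrix.one_apply_ne (Ne.symm hk), mul_zero]
    · by_cases hk : k = i₀
      · subst hk
        simp only [Matrix.updateRow_self, Matrix.updateRow_ne hj]
        rw [Matrix.one_apply_ne hj, mul_zero, ← hhk j hj]
        exact Finset.sum_congr rfl (fun l _ => mul_comm _ _)
      · simp only [Matrix.updateRow_ne hj, Matrix.updateRow_ne hk]
        change g j k = _
        by_cases hjk : j = k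
        · subst hjk
          rw [hgd, Matrix.one_apply_eq, mul_one]
        · rw [hg0 j k hj hk hjk, Matrix.one_apply_ne hjk, mul_zero]
  · unfold flip
    ext i l
    by_cases hi : i = i₀
    · subst hi
      rw [Matrix.updateRow_self, Matrix.updateRow_self]
      by_cases hl : l = j₀
      · subst hl
        rw [Function.update_self]
        exact hAj
      · rw [Function.update_of_ne hl]
        exact hAl l hl
    · rw [Matrix.updateRow_ne hi, Matrix.updateRow_ne hi]

end CMP_

/-- target CMP -/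
theorem p_CMP : T_CMP := fun m A i₀ hm hA horth htwo =>
  CMP_.core (by omega) A i₀ hA horth htwo

end Pool.Agent.TopDet
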