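import Pool.Agent.TopDet.Targets
import Mathlib

/-!
# CT1: the number of matrices with entries `1`, `-1` and given determinant
-/

set_option autoImplicit false

namespace Pool.Agent.TopDet

open Finset Matrix

namespace CT1_

variable {n : ℕ}

/-- the sign -/
def sg (b : Bool) : ℤ := if b then 1 else -1

lemma sg_natAbs (b : Bool) : (sg b).natAbs = 1 := by
  cases b <;> rfl

lemma sg_or (b : Bool) : sg b = 1 ∨ sg b = -1 := by
  cases b <;> simp [sg]

/-- the matrix with signs `s` and family `r` -/
def mk (s : Fin (n + 1) → Bool) (r : Fin (n + 1) → (Fin n → Bool)) :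
    Matrix (Fin (n + 1)) (Fin (n + 1)) ℤ :=
  Matrix.of fun i j => sg (s i) * Fin.cases 1 (fun k => if r i k then -1 else 1) j

lemma mk_zero (s : Fin (n + 1) → Bool) (r : Fin (n + 1) → (Fin n → Bool)) (i : Fin (n + 1)) :
    mk s r i 0 = sg (s i) := by
  simp [mk]

lemma mk_succ (s : Fin (n + 1) → Bool) (r : Fin (n + 1) → (Fin n → Bool)) (i : Fin (n + 1))
    (k : Fin n) : mk s r i k.succ = sg (s i) * (if r i k then -1 else 1) := by
  simp [mk]

/-- column operations -/
def TT (n : ℕ) : Matrix (Fin (n + 1)) (Fin (n + 1)) ℤ :=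
  Matrix.of fun i j => Fin.cases (1 : ℤ) (fun _ => if i = j then -2 else 0) i

lemma TT_det : (TT n).det = (-2) ^ n := by
  have h1 : (TT n).IsUpperTriangular := by
    intro i j hij
    have hij' : j < i := hij
    rcases Fin.eq_zero_or_eq_succ i with rfl | ⟨i', rfl⟩
    · exact absurd hij' (Fin.not_lt_zero j)
    · simp [TT, hij'.ne']
  rw [Matrix.det_of_isUpperTriangular h1, Fin.prod_univ_succ]
  simp [TT]

lemma mk_eq (s : Fin (n + 1) → Bool) (r : Fin (n + 1) → (Fin n → Bool)) :
    mk s r = Matrix.diagonal (fun i => sg (s i)) * (borderedMatrix r * TT n) := by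
  ext i j
  rw [Matrix.diagonal_mul, Matrix.mul_apply, Fin.sum_univ_succ]
  refine Fin.cases ?_ (fun k => ?_) j
  · rw [mk_zero]
    simp [borderedMatrix, TT]
  · rw [mk_succ]
    have h1 : ∀ x : Fin n, borderedMatrix r i x.succ * TT n x.succ k.succ =
        if x = k then -2 * (if r i k then 1 else 0) else 0 := by
      intro x
      by_cases hx : x = k
      · subst hx
        by_cases h : r i x = true <;> simp [borderedMatrix, TT, h]
      · simp [borderedMatrix, TT, hx]
    rw [Finset.sum_congr rfl fun x _ => h1 x, Finset.sum_ite_eq' univ k]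
    cases r i k <;> simp [borderedMatrix, TT]

lemma mk_det (s : Fin (n + 1) → Bool) (r : Fin (n + 1) → (Fin n → Bool)) :
    (mk s r).det.natAbs = 2 ^ n * (borderedMatrix r).det.natAbs := by
  have h1 : (∏ i, sg (s i)).natAbs = 1 := by
    have h2 := map_prod Int.natAbsHom (fun i => sg (s i)) univ
    have h3 : ∏ i, Int.natAbsHom (sg (s i)) = 1 := by
      apply Finset.prod_eq_one
      intro i _
      exact sg_natAbs _
    rw [h3] at h2
    exact h2
  rw [mk_eq, Matrix.det_mul, Matrix.det_mul, Matrix.det_diagonal, TT_det, Int.natAbs_mul,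
    Int.natAbs_mul, Int.natAbs_pow, h1, one_mul, mul_comm]
  rfl

lemma mk_sgn (s : Fin (n + 1) → Bool) (r : Fin (n + 1) → (Fin n → Bool)) : Sgn (mk s r) := by
  intro i j
  refine Fin.cases ?_ (fun k => ?_) j
  · rw [mk_zero]
    exact sg_or _
  · rw [mk_succ]
    rcases sg_or (s i) with h | h <;> cases r i k <;> simp [h]

/-- the decomposition of matrices with entries `1`, `-1` -/
lemma bij (n v : ℕ) : Function.Bijective
    (fun x : (Fin (n + 1) → Bool) × {r : Fin (n + 1) → (Fin n → Bool) //
        (borderedMatrix r).det.natAbs = v} =>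
      (⟨mk x.1 x.2.1, mk_sgn _ _, by rw [mk_det, x.2.2]⟩ :
        {A : Matrix (Fin (n + 1)) (Fin (n + 1)) ℤ // Sgn A ∧ A.det.natAbs = 2 ^ n * v})) := by
  constructor
  · rintro ⟨s, r, hr⟩ ⟨s', r', hr'⟩ h
    have h1 : mk s r = mk s' r' := congrArg Subtype.val h
    have h2 : s = s' := by
      funext i
      have h3 := congrFun (congrFun h1 i) 0
      rw [mk_zero, mk_zero] at h3
      revert h3
      cases s i <;> cases s' i <;> simp [sg]
    subst h2
    have h3 : r = r' := by
      funext i k
      have h3 := congrFun (congrFun h1 i) k.succ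
      rw [mk_succ, mk_succ] at h3
      revert h3
      cases s i <;> cases r i k <;> cases r' i k <;> simp [sg]
    subst h3
    rfl
  · rintro ⟨A, hA, hd⟩
    have key : mk (fun i => decide (A i 0 = 1)) (fun i k => decide (A i k.succ ≠ A i 0)) = A := by
      ext i j
      refine Fin.cases ?_ (fun k => ?_) j
      · rw [mk_zero]
        rcases hA i 0 with h | h <;> simp [sg, h]
      · rw [mk_succ]
        rcases hA i 0 with h | h <;> rcases hA i k.succ with h' | h' <;> simp [sg, h, h']
    refine ⟨⟨fun i => decide (A i 0 = 1), fun i k => decide (A i k.succ ≠ A i 0), ?_⟩, ?_⟩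
    · have h1 := mk_det (fun i => decide (A i 0 = 1)) (fun i k => decide (A i k.succ ≠ A i 0))
      rw [key, hd] at h1
      exact (Nat.eq_of_mul_eq_mul_left (by positivity) h1).symm
    · exact Subtype.ext key

lemma inj_of {v : ℕ} (hv : v ≠ 0) {r : Fin (n + 1) → (Fin n → Bool)}
    (h : (borderedMatrix r).det.natAbs = v) : Function.Injective r := by
  intro i i' hii
  by_contra hne
  apply hv
  rw [← h, Int.natAbs_eq_zero]
  refine Matrix.det_zero_of_row_eq hne ?_
  funext k
  refine Fin.cases rfl (fun k' => ?_) k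
  simp [borderedMatrix, hii]

lemma perm_det (r : Fin (n + 1) → (Fin n → Bool)) (σ : Equiv.Perm (Fin (n + 1))) :
    (borderedMatrix (r ∘ σ)).det.natAbs = (borderedMatrix r).det.natAbs := by
  have h1 : borderedMatrix (r ∘ σ) = (borderedMatrix r).submatrix σ id := rfl
  rw [h1, Matrix.det_permute, Int.natAbs_mul, Int.cast_id]
  have h2 : ((Equiv.Perm.sign σ : ℤˣ) : ℤ).natAbs = 1 := Int.units_natAbs _
  rw [h2, one_mul]

lemma perm_image (r : Fin (n + 1) → (Fin n → Bool)) (σ : Equiv.Perm (Fin (n + 1))) :
    Finset.univ.image (r ∘ σ) = Finset.univ.image r := by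
  rw [← Finset.image_image, Finset.image_univ_equiv]

/-- the families with given determinant -/
lemma card_fam {v : ℕ} (hv : v ≠ 0) :
    Nat.card {r : Fin (n + 1) → (Fin n → Bool) // (borderedMatrix r).det.natAbs = v} =
      (n + 1).factorial * detCount n v := by
  classical
  unfold detCount
  set Q := {R : Finset (Fin n → Bool) // ∃ r : Fin (n + 1) → (Fin n → Bool),
    Function.Injective r ∧ Finset.univ.image r = R ∧ (borderedMatrix r).det.natAbs = v} with hQ
  let f : {r : Fin (n + 1) → (Fin n → Bool) // (borderedMatrix r).det.natAbs = v} → Q :=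
    fun r => ⟨Finset.univ.image r.1, r.1, inj_of hv r.2, rfl, r.2⟩
  rw [← Nat.card_congr (Equiv.sigmaFiberEquiv f), Nat.card_sigma]
  have hfib : ∀ R : Q, Nat.card {x // f x = R} = (n + 1).factorial := by
    rintro ⟨R, r0, h1, h2, h3⟩
    have hb : Function.Bijective (fun σ : Equiv.Perm (Fin (n + 1)) =>
        (⟨⟨r0 ∘ σ, by rw [perm_det, h3]⟩, Subtype.ext (by
          change Finset.univ.image (r0 ∘ σ) = R
          rw [perm_image, h2])⟩ : {x // f x = (⟨R, r0, h1, h2, h3⟩ : Q)})) := by
      constructor
      · intro σ τ h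
        have h4 : r0 ∘ σ = r0 ∘ τ := congrArg (fun x => x.1.1) h
        ext i
        have h5 := h1 (congrFun h4 i)
        rw [h5]
      · rintro ⟨⟨r, hr⟩, hx⟩
        have h4 : Finset.univ.image r = R := congrArg Subtype.val hx
        have hrinj := inj_of hv hr
        have h5 : ∀ i, ∃ j, r0 j = r i := by
          intro i
          have h6 : r i ∈ Finset.univ.image r0 := by
            rw [h2, ← h4]
            exact Finset.mem_image_of_mem _ (Finset.mem_univ i)
          obtain ⟨j, -, hj⟩ := Finset.mem_image.1 h6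
          exact ⟨j, hj⟩
        choose g hg using h5
        have hginj : Function.Injective g := by
          intro i i' hii
          apply hrinj
          rw [← hg i, ← hg i', hii]
        refine ⟨Equiv.ofBijective g (Finite.injective_iff_bijective.1 hginj), ?_⟩
        apply Subtype.ext
        apply Subtype.ext
        funext i
        exact hg i
    rw [← Nat.card_congr (Equiv.ofBijective _ hb), Nat.card_perm, Nat.card_fin]
  rw [Finset.sum_congr rfl fun R _ => hfib R, Finset.sum_const, Finset.card_univ, smul_eq_mul,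
    mul_comm, Nat.card_eq_fintype_card]

end CT1_

open CT1_

theorem p_CT1 : T_CT1 := by
  intro n v hv
  rw [← Nat.card_congr (Equiv.ofBijective _ (bij n v)), Nat.card_prod, card_fam hv,
    Nat.card_fun, Nat.card_fin]
  simp

end Pool.Agent.TopDet
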