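import Pool.Agent.TopDet.Targets

set_option autoImplicit false

namespace Pool.Agent.TopDet

open Finset Matrix

namespace CT2_

lemma flip_apply {N : ℕ} (A : Matrix (Fin N) (Fin N) ℤ) (i j k l : Fin N) :
    flip A i j k l = if k = i ∧ l = j then -(A k l) else A k l := by
  unfold flip
  by_cases hk : k = i
  · subst hk
    rw [Matrix.updateRow_self]
    by_cases hl : l = j
    · subst hl
      simp
    · rw [Function.update_of_ne hl, if_neg (by tauto)]
  · rw [Matrix.updateRow_ne hk, if_neg (by tauto)]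

lemma flip_flip {N : ℕ} (A : Matrix (Fin N) (Fin N) ℤ) (i j : Fin N) :
    flip (flip A i j) i j = A := by
  ext k l
  rw [flip_apply, flip_apply]
  split_ifs <;> simp

lemma flip_transpose {N : ℕ} (A : Matrix (Fin N) (Fin N) ℤ) (i j : Fin N) :
    (flip A i j)ᵀ = flip Aᵀ j i := by
  ext k l
  rw [Matrix.transpose_apply, flip_apply, flip_apply, Matrix.transpose_apply]
  simp only [and_comm]

lemma gram {N : ℕ} (A : Matrix (Fin N) (Fin N) ℤ) (k l : Fin N) :
    (A * Aᵀ) k l = ∑ x, A k x * A l x := by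
  rw [Matrix.mul_apply]
  rfl

lemma had_gram {N : ℕ} {B : Matrix (Fin N) (Fin N) ℤ} (hB : Had B) {k l : Fin N} (h : k ≠ l) :
    ∑ x, B k x * B l x = 0 := by
  rw [← gram, hB.2, Matrix.smul_apply, Matrix.one_apply_ne h, smul_zero]

lemma L1 {N : ℕ} {B : Matrix (Fin N) (Fin N) ℤ} (hB : Had B) (i j k : Fin N) (h : k ≠ i) :
    ∑ x, flip B i j i x * flip B i j k x ≠ 0 := by
  have h1 : ∀ x, flip B i j i x * flip B i j k x
      = B i x * B k x - if x = j then 2 * (B i j * B k j) else 0 := by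
    intro x
    rw [flip_apply, flip_apply, if_neg (by tauto : ¬ (k = i ∧ x = j))]
    by_cases hx : x = j
    · subst hx
      rw [if_pos ⟨rfl, rfl⟩, if_pos rfl]
      ring
    · rw [if_neg (by tauto), if_neg hx]
      ring
  rw [sum_congr rfl (fun x _ => h1 x), sum_sub_distrib, had_gram hB (Ne.symm h)]
  simp only [sum_ite_eq', mem_univ, if_true]
  rcases hB.1 i j with e1 | e1 <;> rcases hB.1 k j with e2 | e2 <;> rw [e1, e2] <;> norm_num

lemma L2 {N : ℕ} {B : Matrix (Fin N) (Fin N) ℤ} (hB : Had B) (i j k l : Fin N) (hk : k ≠ i)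
    (hl : l ≠ i) (h : k ≠ l) :
    ∑ x, flip B i j k x * flip B i j l x = 0 := by
  have h1 : ∀ x, flip B i j k x * flip B i j l x = B k x * B l x := by
    intro x
    rw [flip_apply, flip_apply, if_neg (by tauto), if_neg (by tauto)]
  rw [sum_congr rfl (fun x _ => h1 x), had_gram hB h]

/-- the row is determined -/
lemma row_eq {N : ℕ} (hN : 3 ≤ N) {B B' : Matrix (Fin N) (Fin N) ℤ} (hB : Had B) (hB' : Had B')
    {i j i' j' : Fin N} (h : flip B i j = flip B' i' j') : i = i' := by
  by_contra hne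
  have h1 : ∃ k : Fin N, k ≠ i ∧ k ≠ i' := by
    have h2 : ({i, i'} : Finset (Fin N)).card < (univ : Finset (Fin N)).card := by
      rw [card_univ, Fintype.card_fin]
      exact lt_of_le_of_lt (card_le_two) (by omega)
    obtain ⟨k, _, hk⟩ := exists_mem_notMem_of_card_lt_card h2
    refine ⟨k, ?_, ?_⟩
    · rintro rfl
      exact hk (by simp)
    · rintro rfl
      exact hk (by simp)
  obtain ⟨k, hk, hk'⟩ := h1
  apply L1 hB i j k hk
  rw [h]
  exact L2 hB' i' j' i k hne hk' (Ne.symm hk)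

end CT2_

open CT2_ in
theorem p_CT2 (h1 : T_CLS) (h2 : T_HD) : T_CT2 := by
  intro m hm
  set a : ℕ := (4 * m) ^ (2 * m) with ha
  set b : ℕ := (4 * m - 2) * (4 * m) ^ (2 * m - 1) with hb
  have hab : b < a := by
    have e : a = 4 * m * (4 * m) ^ (2 * m - 1) := by
      rw [ha, ← pow_succ']
      congr 1
      omega
    rw [e, hb]
    have hpos : 0 < (4 * m) ^ (2 * m - 1) := pow_pos (by omega) _
    exact Nat.mul_lt_mul_of_pos_right (by omega) hpos
  have hhad : ∀ B : Matrix (Fin (4 * m)) (Fin (4 * m)) ℤ, Sgn B → B.det.natAbs = a → Had B := by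
    intro B hB hd
    rcases h1 m B hm hB (by rw [hd]; exact hab.le) with h | ⟨B', i, j, hB', rfl⟩
    · exact h
    · have := ((h2 m B' (by omega) hB').2.2 i j).2
      rw [this] at hd
      exact absurd hd (ne_of_lt hab)
  have key : Nat.card {A : Matrix (Fin (4 * m)) (Fin (4 * m)) ℤ // Sgn A ∧ A.det.natAbs = b}
      = Nat.card (((Fin (4 * m)) × (Fin (4 * m))) ×
        {A : Matrix (Fin (4 * m)) (Fin (4 * m)) ℤ // Sgn A ∧ A.det.natAbs = a}) := by
    symm
    refine Nat.card_congr (Equiv.ofBijective (fun p => ⟨flip p.2.1 p.1.1 p.1.2, ?_⟩) ⟨?_, ?_⟩)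
    · have h3 := hhad p.2.1 p.2.2.1 p.2.2.2
      exact (h2 m p.2.1 (by omega) h3).2.2 p.1.1 p.1.2
    · rintro ⟨⟨i, j⟩, ⟨B, hB⟩⟩ ⟨⟨i', j'⟩, ⟨B', hB'⟩⟩ h
      have h3 : flip B i j = flip B' i' j' := congrArg Subtype.val h
      have hH := hhad B hB.1 hB.2
      have hH' := hhad B' hB'.1 hB'.2
      have hi : i = i' := row_eq (by omega) hH hH' h3
      have hj : j = j' := by
        have h4 : flip Bᵀ j i = flip B'ᵀ j' i' := by
          rw [← flip_transpose, ← flip_transpose, h3]
        exact row_eq (by omega) (h2 m B (by omega) hH).1 (h2 m B' (by omega) hH').1 h4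
      subst hi
      subst hj
      have h5 : B = B' := by
        rw [← CT2_.flip_flip B i j, h3, CT2_.flip_flip]
      subst h5
      rfl
    · rintro ⟨A, hA, hd⟩
      rcases h1 m A hm hA (by rw [hd]) with h | ⟨B', i, j, hB', rfl⟩
      · have := (h2 m A (by omega) h).2.1
        rw [this] at hd
        exact absurd hd.symm (ne_of_lt hab)
      · exact ⟨((i, j), ⟨B', hB'.1, (h2 m B' (by omega) hB').2.1⟩), rfl⟩
  rw [key, Nat.card_prod, Nat.card_prod, Nat.card_eq_fintype_card, Fintype.card_fin, sq]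

end Pool.Agent.TopDet
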