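import Mathlib
import Pool.Agent.TopDet.Targets

set_option autoImplicit false

/-!
# The top of the determinant spectrum: eigenvalues of a positive definite matrix (EIG)
-/

namespace Pool.Agent.TopDet

open Finset Matrix

namespace EIG_

variable {ι : Type} [Fintype ι] [DecidableEq ι]

theorem dot_diag (μ : ι → ℝ) (y : ι → ℝ) :
    y ⬝ᵥ (diagonal μ).mulVec y = ∑ i, μ i * y i ^ 2 := by
  simp only [dotProduct, mulVec_diagonal]
  exact sum_congr rfl fun i _ => by ring

omit [DecidableEq ι] in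
theorem dot_conj (U D : Matrix ι ι ℝ) (v : ι → ℝ) :
    v ⬝ᵥ (U * D * Uᵀ).mulVec v = (Uᵀ.mulVec v) ⬝ᵥ D.mulVec (Uᵀ.mulVec v) := by
  rw [← mulVec_mulVec, ← mulVec_mulVec, dotProduct_mulVec v U, ← mulVec_transpose]

end EIG_

theorem p_EIG : T_EIG := by
  intro ι _ _ S hS
  have hH : S.IsHermitian := hS.isHermitian
  set μ : ι → ℝ := hH.eigenvalues with hμ
  set U : Matrix ι ι ℝ := (hH.eigenvectorUnitary : Matrix ι ι ℝ) with hU
  have hUU : Uᵀ * U = 1 := by
    have := Unitary.coe_star_mul_self hH.eigenvectorUnitary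
    rw [Matrix.star_eq_conjTranspose, Matrix.conjTranspose_eq_transpose_of_trivial] at this
    exact this
  have hUU' : U * Uᵀ = 1 := by rw [mul_eq_one_comm]; exact hUU
  have hspec : S = U * diagonal μ * Uᵀ := by
    have h := hH.spectral_theorem
    rw [Unitary.conjStarAlgAut_apply, Matrix.star_eq_conjTranspose,
      Matrix.conjTranspose_eq_transpose_of_trivial] at h
    exact h
  have hpos : ∀ i, 0 < μ i := fun i => hS.eigenvalues_pos i
  have hmul : ∀ D E : Matrix ι ι ℝ, (U * D * Uᵀ) * (U * E * Uᵀ) = U * (D * E) * Uᵀ := by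
    intro D E
    calc (U * D * Uᵀ) * (U * E * Uᵀ) = U * D * (Uᵀ * U) * E * Uᵀ := by
          simp only [Matrix.mul_assoc]
      _ = U * (D * E) * Uᵀ := by rw [hUU]; simp only [Matrix.mul_assoc, Matrix.one_mul]
  have htr : ∀ ν : ι → ℝ, (U * diagonal ν * Uᵀ).trace = ∑ i, ν i := by
    intro ν
    rw [Matrix.mul_assoc, Matrix.trace_mul_comm, Matrix.mul_assoc, hUU, Matrix.mul_one,
      Matrix.trace_diagonal]
  have hinv : S⁻¹ = U * diagonal (fun i => (μ i)⁻¹) * Uᵀ := by
    refine Matrix.inv_eq_right_inv ?_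
    rw [hspec, hmul, diagonal_mul_diagonal]
    have : (fun i => μ i * (μ i)⁻¹) = fun _ => (1 : ℝ) := by
      funext i; exact mul_inv_cancel₀ (hpos i).ne'
    rw [this, diagonal_one, Matrix.mul_one, hUU']
  have hnorm : ∀ v : ι → ℝ, v ⬝ᵥ v = (Uᵀ.mulVec v) ⬝ᵥ (Uᵀ.mulVec v) := by
    intro v
    have h := EIG_.dot_conj U 1 v
    rw [Matrix.mul_one, hUU', one_mulVec, one_mulVec] at h
    exact h
  refine ⟨μ, hpos, ?_, ?_, ?_, ?_, ?_, ?_⟩
  · have h := hH.det_eq_prod_eigenvalues
    simpa using h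
  · conv_lhs => rw [hspec]
    exact htr μ
  · conv_lhs => rw [hspec]
    rw [hmul, diagonal_mul_diagonal, htr]
    exact sum_congr rfl fun i _ => by ring
  · conv_lhs => rw [hspec]
    rw [hmul, hmul, diagonal_mul_diagonal, diagonal_mul_diagonal, htr]
    exact sum_congr rfl fun i _ => by ring
  · intro c hc hle v
    rw [hinv, EIG_.dot_conj, EIG_.dot_diag, hnorm v, mul_sum, dotProduct]
    refine sum_le_sum fun i _ => ?_
    have h1 : 1 ≤ c * (μ i)⁻¹ := by
      rw [← div_eq_mul_inv, one_le_div (hpos i)]; exact hle i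
    nlinarith [sq_nonneg ((Uᵀ.mulVec v) i)]
  · intro c hle v
    conv_rhs => rw [hspec]
    rw [EIG_.dot_conj, EIG_.dot_diag, hnorm v, dotProduct, mul_sum]
    refine sum_le_sum fun i _ => ?_
    nlinarith [sq_nonneg ((Uᵀ.mulVec v) i), hle i]

end Pool.Agent.TopDet
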