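import Pool.Agent.TopDet.Targets

set_option autoImplicit false

/-!
# Determinants of Hadamard matrices and of their modifications
-/

namespace Pool.Agent.TopDet

namespace HD_

open Matrix

variable {N : ℕ}

lemma det_sq (B : Matrix (Fin N) (Fin N) ℤ)
    (hB : B * B.transpose = (N : ℤ) • (1 : Matrix (Fin N) (Fin N) ℤ)) :
    B.det * B.det = (N : ℤ) ^ N := by
  have h := congrArg Matrix.det hB
  rw [Matrix.det_mul, Matrix.det_transpose, Matrix.det_smul, Matrix.det_one, mul_one,
    Fintype.card_fin] at h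
  exact h

lemma det_ne (hN : 0 < N) (B : Matrix (Fin N) (Fin N) ℤ)
    (hB : B * B.transpose = (N : ℤ) • (1 : Matrix (Fin N) (Fin N) ℤ)) : B.det ≠ 0 := by
  intro h
  have h1 := det_sq B hB
  rw [h, mul_zero] at h1
  have h2 : (N : ℤ) ^ N ≠ 0 := pow_ne_zero _ (by exact_mod_cast hN.ne')
  exact h2 h1.symm

lemma had_transpose (hN : 0 < N) (B : Matrix (Fin N) (Fin N) ℤ) (hB : Had B) :
    Had B.transpose := by
  refine ⟨fun i j => hB.1 j i, ?_⟩
  rw [Matrix.transpose_transpose]
  have h0 : B * (B.transpose * B - (N : ℤ) • (1 : Matrix (Fin N) (Fin N) ℤ)) = 0 := by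
    rw [Matrix.mul_sub, ← Matrix.mul_assoc, hB.2, Matrix.smul_mul, Matrix.one_mul,
      Matrix.mul_smul, Matrix.mul_one, sub_self]
  have h1 : B.det • (B.transpose * B - (N : ℤ) • (1 : Matrix (Fin N) (Fin N) ℤ)) = 0 := by
    have h2 := congrArg (fun X => B.adjugate * X) h0
    simp only [Matrix.mul_zero] at h2
    rw [← Matrix.mul_assoc, Matrix.adjugate_mul, Matrix.smul_mul, Matrix.one_mul] at h2
    exact h2
  have h3 : B.transpose * B - (N : ℤ) • (1 : Matrix (Fin N) (Fin N) ℤ) = 0 := by
    rcases smul_eq_zero.1 h1 with h | h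
    · exact absurd h (det_ne hN B hB.2)
    · exact h
  exact sub_eq_zero.1 h3

lemma adj_eq (B : Matrix (Fin N) (Fin N) ℤ)
    (hB : B * B.transpose = (N : ℤ) • (1 : Matrix (Fin N) (Fin N) ℤ)) (i j : Fin N) :
    (N : ℤ) * B.adjugate j i = B.det * B i j := by
  have h : B.adjugate * (B * B.transpose) = B.det • B.transpose := by
    rw [← Matrix.mul_assoc, Matrix.adjugate_mul, Matrix.smul_mul, Matrix.one_mul]
  rw [hB, Matrix.mul_smul, Matrix.mul_one] at h
  have h2 := congrFun (congrFun h j) i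
  simpa [Matrix.smul_apply, Matrix.transpose_apply] using h2

lemma flip_det (B : Matrix (Fin N) (Fin N) ℤ) (i j : Fin N) :
    (flip B i j).det = B.det - 2 * B i j * B.adjugate j i := by
  have hrow : Function.update (B i) j (-(B i j)) = B i + (-2 * B i j) • Pi.single j (1 : ℤ) := by
    funext k
    by_cases hk : k = j
    · subst hk
      simp
      ring
    · simp [hk]
  unfold flip
  rw [hrow, Matrix.det_updateRow_add, Matrix.det_updateRow_smul, Matrix.updateRow_eq_self,
    Matrix.adjugate_apply]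
  ring

lemma flip_sgn (B : Matrix (Fin N) (Fin N) ℤ) (hB : Sgn B) (i j : Fin N) :
    Sgn (flip B i j) := by
  intro a b
  unfold flip
  by_cases ha : a = i
  · subst ha
    rw [Matrix.updateRow_self]
    by_cases hb : b = j
    · subst hb
      rw [Function.update_self]
      rcases hB a b with h | h
      · right; rw [h]
      · left; rw [h]; norm_num
    · rw [Function.update_of_ne hb]
      exact hB a b
  · rw [Matrix.updateRow_ne ha]
    exact hB a b

end HD_

open HD_ in
theorem p_HD : T_HD := by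
  intro m B hm hB
  have hN : 0 < 4 * m := by omega
  have hdet : B.det.natAbs = (4 * m) ^ (2 * m) := by
    have h1 := det_sq B hB.2
    have h2 : B.det.natAbs * B.det.natAbs = (4 * m) ^ (4 * m) := by
      have h3 := congrArg Int.natAbs h1
      rw [Int.natAbs_mul, Int.natAbs_pow, Int.natAbs_natCast] at h3
      exact h3
    have h4 : (4 * m) ^ (4 * m) = (4 * m) ^ (2 * m) * (4 * m) ^ (2 * m) := by
      rw [← pow_add]
      congr 1
      omega
    rw [h4] at h2
    exact Nat.mul_self_inj.1 h2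
  refine ⟨had_transpose hN B hB, hdet, fun i j => ⟨flip_sgn B hB.1 i j, ?_⟩⟩
  have h1 := flip_det B i j
  have h2 := adj_eq B hB.2 i j
  have hsq : B i j * B i j = 1 := by
    rcases hB.1 i j with h | h <;> rw [h] <;> norm_num
  have h3 : ((4 * m : ℕ) : ℤ) * (flip B i j).det = (((4 * m : ℕ) : ℤ) - 2) * B.det := by
    rw [h1]
    have h5 : ((4 * m : ℕ) : ℤ) * (B.det - 2 * B i j * B.adjugate j i)
        = ((4 * m : ℕ) : ℤ) * B.det - 2 * B i j * (((4 * m : ℕ) : ℤ) * B.adjugate j i) := by
      ring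
    rw [h5, h2]
    have h6 : 2 * B i j * (B.det * B i j) = 2 * (B i j * B i j) * B.det := by ring
    rw [h6, hsq]
    ring
  have h4 : ((4 * m : ℕ) : ℤ) - 2 = ((4 * m - 2 : ℕ) : ℤ) := by
    rw [Nat.cast_sub (by omega)]
    norm_num
  rw [h4] at h3
  have h7 := congrArg Int.natAbs h3
  rw [Int.natAbs_mul, Int.natAbs_mul, Int.natAbs_natCast, Int.natAbs_natCast, hdet] at h7
  have h8 : (4 * m) ^ (2 * m) = (4 * m) * (4 * m) ^ (2 * m - 1) := by
    rw [← pow_succ']
    congr 1
    omega
  rw [h8] at h7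
  have h9 : 4 * m * (flip B i j).det.natAbs
      = 4 * m * ((4 * m - 2) * (4 * m) ^ (2 * m - 1)) := by
    rw [h7]
    ring
  exact Nat.eq_of_mul_eq_mul_left hN h9

end Pool.Agent.TopDet
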