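import Mathlib
import Pool.Agent.TopDet.Targets

set_option autoImplicit false

namespace Pool.Agent.TopDet

open Finset Matrix

namespace MIX_

lemma gram_cast {N : ℕ} (A : Matrix (Fin N) (Fin N) ℤ) (i j : Fin N) :
    ((A.map (Int.cast : ℤ → ℝ)) * (A.map (Int.cast : ℤ → ℝ))ᵀ) i j =
      (((A * Aᵀ) i j : ℤ) : ℝ) := by
  simp [Matrix.mul_apply]

lemma gram_diag {N : ℕ} {A : Matrix (Fin N) (Fin N) ℤ} (hA : Sgn A) (i : Fin N) :
    (A * Aᵀ) i i = (N : ℤ) := by
  rw [Matrix.mul_apply]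
  have : ∀ k, A i k * Aᵀ k i = 1 := by
    intro k
    rw [Matrix.transpose_apply]
    rcases hA i k with h | h <;> rw [h] <;> norm_num
  rw [sum_congr rfl fun k _ => this k]
  simp

lemma gram_symm {N : ℕ} (A : Matrix (Fin N) (Fin N) ℤ) (i j : Fin N) :
    (A * Aᵀ) i j = (A * Aᵀ) j i := by
  rw [Matrix.mul_apply, Matrix.mul_apply]
  exact sum_congr rfl fun k _ => by rw [Matrix.transpose_apply, Matrix.transpose_apply, mul_comm]

lemma core (hX : T_MXB) (m : ℕ) (A : Matrix (Fin (4 * m)) (Fin (4 * m)) ℤ) (hm : 3 ≤ m)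
    (hA : Sgn A) (hdet : A.det ≠ 0) (p : Fin (4 * m) → Prop) [DecidablePred p]
    (hp : ∀ i j, ((p i ↔ p j) → (4 : ℤ) ∣ (A * Aᵀ) i j) ∧
      (¬ (p i ↔ p j) → (4 : ℤ) ∣ (A * Aᵀ) i j - 2))
    (hne : ∃ j, ¬ p j)
    (hcard : Fintype.card {j // ¬ p j} ≤ Fintype.card {j // p j}) :
    (A.det : ℝ) ^ 2 ≤ (4 * m - 2) ^ 2 * (4 * m) ^ (4 * m - 2) ∧
    ((A.det : ℝ) ^ 2 = (4 * m - 2) ^ 2 * (4 * m) ^ (4 * m - 2) → ∃ i₀ : Fin (4 * m),
      (∀ j k, j ≠ i₀ → k ≠ i₀ → j ≠ k → (A * Aᵀ) j k = 0) ∧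
      ∀ j, j ≠ i₀ → |(A * Aᵀ) i₀ j| = 2) := by
  set M : Matrix (Fin (4 * m)) (Fin (4 * m)) ℝ := A.map (Int.cast : ℤ → ℝ) with hM
  set G : Matrix (Fin (4 * m)) (Fin (4 * m)) ℝ := M * Mᵀ with hG
  have hGe : ∀ i j, G i j = (((A * Aᵀ) i j : ℤ) : ℝ) := fun i j => gram_cast A i j
  have hMdet : M.det = (A.det : ℝ) := by
    rw [hM]
    have := (Int.castRingHom ℝ).map_det A
    simpa using this.symm
  have hGdet : G.det = (A.det : ℝ) ^ 2 := by
    rw [hG, Matrix.det_mul, Matrix.det_transpose, hMdet, sq]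
  have hMu : IsUnit M := by
    rw [Matrix.isUnit_iff_isUnit_det, hMdet]
    exact (Int.cast_ne_zero.mpr hdet).isUnit
  have hGpos : G.PosDef := by
    have h1 := Matrix.PosDef.mul_conjTranspose_self M
      (Matrix.vecMul_injective_of_isUnit hMu)
    rwa [Matrix.conjTranspose_eq_transpose_of_trivial] at h1
  set e := Equiv.sumCompl p with he
  set P : Matrix {j // p j} {j // p j} ℝ := fun i j => G i j with hP
  set X : Matrix {j // p j} {j // ¬ p j} ℝ := fun i j => G i j with hXd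
  set Q : Matrix {j // ¬ p j} {j // ¬ p j} ℝ := fun i j => G i j with hQ
  have hGs : ∀ i j, G i j = G j i := by
    intro i j
    rw [hGe, hGe, gram_symm]
  have hblk : Matrix.fromBlocks P X Xᵀ Q = G.submatrix e e := by
    ext i j
    rcases i with i | i <;> rcases j with j | j
    · simp [hP, he]
    · simp [hXd, he]
    · simp only [Matrix.fromBlocks_apply₂₁, Matrix.transpose_apply, Matrix.submatrix_apply, he,
        Equiv.sumCompl_apply_inl, Equiv.sumCompl_apply_inr, hXd]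
      exact hGs _ _
    · simp [hQ, he]
  have hpos : (Matrix.fromBlocks P X Xᵀ Q).PosDef := by
    rw [hblk]
    exact hGpos.submatrix e.injective
  have hdetb : (Matrix.fromBlocks P X Xᵀ Q).det = (A.det : ℝ) ^ 2 := by
    rw [hblk, Matrix.det_submatrix_equiv_self, hGdet]
  have hct : Fintype.card {j // p j} + Fintype.card {j // ¬ p j} = 4 * m := by
    rw [← Fintype.card_sum, Fintype.card_congr e, Fintype.card_fin]
  have hcb : 1 ≤ Fintype.card {j // ¬ p j} := by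
    obtain ⟨j, hj⟩ := hne
    exact Fintype.card_pos_iff.mpr ⟨⟨j, hj⟩⟩
  have hdiag : ∀ i, G i i = 4 * (m : ℝ) := by
    intro i
    rw [hGe, gram_diag hA]
    push_cast
    ring
  obtain ⟨h1, h2⟩ := hX m {j // p j} {j // ¬ p j} P X Q hm hct hcb hcard hpos
    (fun i => hdiag i)
    (fun i j _ => by
      obtain ⟨z, hz⟩ := (hp i j).1 (iff_of_true i.2 j.2)
      refine ⟨z, ?_⟩
      show G i j = _
      rw [hGe, hz]
      push_cast
      ring)
    (fun j => hdiag j)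
    (fun i j => by
      obtain ⟨z, hz⟩ := (hp i j).2 (fun h => j.2 (h.mp i.2))
      show 2 ≤ |G i j|
      rw [hGe]
      have : (2 : ℤ) ≤ |(A * Aᵀ) i j| := by
        rcases abs_cases ((A * Aᵀ) (i : Fin (4 * m)) (j : Fin (4 * m))) with h | h <;> omega
      exact_mod_cast this)
  rw [hdetb] at h1 h2
  refine ⟨h1, fun heq => ?_⟩
  obtain ⟨hc1, hPe, hXe⟩ := h2 heq
  obtain ⟨⟨i₀, hi₀⟩, huni⟩ := Fintype.card_eq_one_iff.mp hc1
  have hpj : ∀ j, j ≠ i₀ → p j := by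
    intro j hj
    by_contra hcon
    have := huni ⟨j, hcon⟩
    exact hj (congrArg Subtype.val this)
  refine ⟨i₀, ?_, ?_⟩
  · intro j k hj hk hjk
    have h3 : P ⟨j, hpj j hj⟩ ⟨k, hpj k hk⟩ = 0 := by
      rw [hPe, Matrix.smul_apply, Matrix.one_apply_ne (by
        intro h
        exact hjk (congrArg Subtype.val h)), smul_zero]
    have h4 : G j k = 0 := h3
    rw [hGe] at h4
    exact_mod_cast h4
  · intro j hj
    have h3 : |G j i₀| = 2 := hXe ⟨j, hpj j hj⟩ ⟨i₀, hi₀⟩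
    rw [hGs, hGe] at h3
    exact_mod_cast h3

end MIX_

open MIX_ in
theorem p_MIX (h1 : T_PAR) (h2 : T_MXB) : T_MIX := by
  intro m A hm hA hdet hex
  classical
  obtain ⟨p, hp⟩ := h1 m A hA
  obtain ⟨i, j, hij⟩ := hex
  have hn : ¬ (p i ↔ p j) := fun h => hij ((hp i j).1 h)
  have hboth : (∃ j, ¬ p j) ∧ ∃ j, p j := by
    by_cases hi : p i
    · refine ⟨⟨j, fun h => hn (iff_of_true hi h)⟩, ⟨i, hi⟩⟩
    · by_cases hj : p j
      · exact ⟨⟨i, hi⟩, ⟨j, hj⟩⟩
      · exact absurd (iff_of_false hi hj) hn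
  rcases le_total (Fintype.card {j // ¬ p j}) (Fintype.card {j // p j}) with hc | hc
  · exact core h2 m A hm hA hdet p hp hboth.1 hc
  · refine core h2 m A hm hA hdet (fun j => ¬ p j) ?_ ?_ ?_
    · intro i j
      refine ⟨fun h => (hp i j).1 (not_iff_not.mp h), fun h => (hp i j).2 (fun h' => h ?_)⟩
      exact not_congr h'
    · obtain ⟨j, hj⟩ := hboth.2
      exact ⟨j, not_not.mpr hj⟩
    · have : Fintype.card {j // ¬ ¬ p j} = Fintype.card {j // p j} := by
        refine Fintype.card_congr (Equiv.subtypeEquivRight fun j => not_not)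
      rw [this]
      exact hc

end Pool.Agent.TopDet
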