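import Mathlib
import Pool.Agent.TopDet.Targets

set_option autoImplicit false

/-!
# The top of the determinant spectrum (MP_ef01bd_co): job MXB, two classes, abstract form
-/

namespace Pool.Agent.TopDet

open Finset Matrix

namespace MXB_

/-- a negligible symmetric matrix with diagonal `N` and zero off the diagonal is `N • 1` -/
theorem eq_smul_one {α : Type} [DecidableEq α] (P : Matrix α α ℝ) (N : ℝ)
    (hd : ∀ i, P i i = N) (ho : ∀ i j, i ≠ j → P i j = 0) : P = N • (1 : Matrix α α ℝ) := by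
  ext i j
  by_cases h : i = j
  · subst h
    rw [hd]
    simp
  · rw [ho i j h]
    simp [Matrix.one_apply_ne h]

/-- the value of a quadratic form on `e_i - σ e_j` -/
theorem quad {α : Type} [Fintype α] [DecidableEq α] (P : Matrix α α ℝ) (i j : α)
    (σ : ℝ) (hs : P j i = P i j) :
    (Pi.single i (1 : ℝ) - Pi.single j σ) ⬝ᵥ P.mulVec (Pi.single i (1 : ℝ) - Pi.single j σ) =
      P i i + σ ^ 2 * P j j - 2 * σ * P i j := by
  rw [Matrix.mulVec_sub, Matrix.mulVec_single, Matrix.mulVec_single]
  simp only [sub_dotProduct, single_dotProduct, Pi.sub_apply, Pi.smul_apply, Matrix.col_apply,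
    MulOpposite.smul_eq_mul_unop, MulOpposite.unop_op]
  rw [hs]
  ring

theorem vv {α : Type} [Fintype α] [DecidableEq α] (i j : α) (hij : i ≠ j) (σ : ℝ) :
    (Pi.single i (1 : ℝ) - Pi.single j σ : α → ℝ) ⬝ᵥ (Pi.single i (1 : ℝ) - Pi.single j σ) =
      1 + σ ^ 2 := by
  simp only [sub_dotProduct, single_dotProduct, Pi.sub_apply, Pi.single_eq_same,
    Pi.single_eq_of_ne hij, Pi.single_eq_of_ne hij.symm]
  ring

/-- the arithmetic of the bound -/
theorem bound_eq (m : ℕ) (hm : 1 ≤ m) :
    (4 * (m : ℝ)) ^ (4 * m) * (1 - 1 / (2 * (m : ℝ))) ^ 2 =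
      (4 * (m : ℝ) - 2) ^ 2 * (4 * (m : ℝ)) ^ (4 * m - 2) := by
  have hm0 : (m : ℝ) ≠ 0 := by
    have : (1 : ℝ) ≤ m := by exact_mod_cast hm
    positivity
  have h1 : (4 * (m : ℝ)) ^ (4 * m) = (4 * (m : ℝ)) ^ 2 * (4 * (m : ℝ)) ^ (4 * m - 2) := by
    rw [← pow_add]
    congr 1
    omega
  rw [h1]
  have h2 : (4 * (m : ℝ)) ^ 2 * (1 - 1 / (2 * (m : ℝ))) ^ 2 = (4 * (m : ℝ) - 2) ^ 2 := by
    field_simp
    ring
  rw [← h2]
  ring

end MXB_

theorem p_MXB (h1 : T_EIG) (h2 : T_SCH) (h3 : T_SC1) (h4 : T_BN1) (h5 : T_BN2) : T_MXB := by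
  intro m α β _ _ _ _ P X Q hm hcard hb hab hpd hPd hPo hQd hX
  have hmR : (3 : ℝ) ≤ m := by exact_mod_cast hm
  have hm0 : (0 : ℝ) < m := by linarith
  set N : ℝ := 4 * (m : ℝ) with hN
  have hN0 : 0 < N := by rw [hN]; linarith
  have hcardR : (Fintype.card α : ℝ) + Fintype.card β = N := by
    rw [hN]
    exact_mod_cast hcard
  have hP : P.PosDef := by
    have h := hpd.submatrix (e := Sum.inl) Sum.inl_injective
    have e : (Matrix.fromBlocks P X Xᵀ Q).submatrix Sum.inl Sum.inl = P := by
      ext i j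
      rfl
    rw [e] at h
    exact h
  have hPs : ∀ i j, P j i = P i j := by
    intro i j
    have h := hP.isHermitian.apply i j
    simpa using h
  obtain ⟨μ, hμ0, hdet, htr, -, -, hinv, hlow⟩ := h1 α P hP
  have hane : Nonempty α := by
    rw [← Fintype.card_pos_iff]
    omega
  obtain ⟨i₀, -, hi₀⟩ := Finset.exists_max_image (Finset.univ : Finset α) μ
    Finset.univ_nonempty
  set c : ℝ := μ i₀ with hc
  have hc0 : 0 < c := hμ0 i₀
  have hcle : ∀ i, μ i ≤ c := fun i => hi₀ i (Finset.mem_univ i)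
  set x : α → ℝ := fun i => μ i / N - 1 with hx
  have hx1 : ∀ i, 1 + x i = μ i / N := fun i => by rw [hx]; ring
  have hxm : ∀ i, -1 < x i := by
    intro i
    have h := div_pos (hμ0 i) hN0
    have := hx1 i
    linarith
  have htrP : P.trace = Fintype.card α * N := by
    unfold Matrix.trace
    simp only [Matrix.diag_apply, hPd, Finset.sum_const, Finset.card_univ, nsmul_eq_mul]
  have hsum : ∑ i, x i = 0 := by
    rw [hx, Finset.sum_sub_distrib, ← Finset.sum_div, ← htr, htrP]
    simp only [Finset.sum_const, Finset.card_univ, nsmul_eq_mul, mul_one]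
    field_simp
    ring
  have hprod : P.det = N ^ Fintype.card α * ∏ i, (1 + x i) := by
    rw [hdet]
    simp only [hx1]
    rw [Finset.prod_div_distrib, Finset.prod_const, Finset.card_univ]
    field_simp
  have hpr0 : 0 < ∏ i, (1 + x i) := Finset.prod_pos fun i _ => by
    have := hxm i
    linarith
  set s : ℝ := c / N with hs
  have hs0 : 0 < s := div_pos hc0 hN0
  have hsle : ∀ i, 1 + x i ≤ s := fun i => by
    rw [hx1, hs]
    exact div_le_div_of_nonneg_right (hcle i) hN0.le
  have hsex : ∃ i, 1 + x i = s := ⟨i₀, by rw [hx1]⟩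
  have hcN : c = N * s := by
    rw [hs]
    field_simp
  obtain ⟨hdet0, hS2, hS3⟩ := h2 α β N c P X Q hN0 hc0 hpd hQd hX (hinv c hc0 hcle)
  have hBd := MXB_.bound_eq m (by omega)
  rw [← hN] at hBd
  -- strict bound in all cases but one
  have hstrict : (2 ≤ Fintype.card β ∨ P ≠ N • (1 : Matrix α α ℝ)) →
      (Matrix.fromBlocks P X Xᵀ Q).det < (N - 2) ^ 2 * N ^ (4 * m - 2) := by
    intro hcase
    by_cases hb2 : 2 ≤ Fintype.card β
    · -- two rows in both classes
      have hp2 : 2 ≤ Fintype.card α := by omega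
      set p : ℝ := (Fintype.card α : ℝ) with hp
      set q : ℝ := (Fintype.card β : ℝ) with hq
      have hpR : (2 : ℝ) ≤ p := by rw [hp]; exact_mod_cast hp2
      have hqR : (2 : ℝ) ≤ q := by rw [hq]; exact_mod_cast hb2
      have hpq : 2 * N - 4 ≤ p * q := by nlinarith
      have hk : 2 / (m : ℝ) - 1 / (m : ℝ) ^ 2 ≤ 4 * p * q / N ^ 2 := by
        rw [hN] at hpq ⊢
        have e : 2 / (m : ℝ) - 1 / (m : ℝ) ^ 2 = 4 * (2 * (4 * m) - 4) / (4 * (m : ℝ)) ^ 2 := by
          field_simp
        rw [e]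
        apply div_le_div_of_nonneg_right _ (by positivity)
        nlinarith
      have key := h5 α x m s (4 * p * q / N ^ 2) hmR hxm hsum hk hsle hsex
      have e1 : 4 * p * q / (N * c) = 4 * p * q / N ^ 2 / s := by
        rw [hcN]
        field_simp
      refine lt_of_le_of_lt hS2 ?_
      rw [e1, hprod, ← hBd]
      have e2 : N ^ (4 * m) = N ^ Fintype.card α * N ^ Fintype.card β := by
        rw [← pow_add, hcard]
      rw [e2]
      have h6 : 0 < N ^ Fintype.card α * N ^ Fintype.card β := by positivity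
      calc (N ^ Fintype.card α * ∏ i, (1 + x i)) *
            (N ^ Fintype.card β * Real.exp (-(4 * p * q / N ^ 2 / s))) =
          (N ^ Fintype.card α * N ^ Fintype.card β) *
            ((∏ i, (1 + x i)) * Real.exp (-(4 * p * q / N ^ 2 / s))) := by ring
        _ < (N ^ Fintype.card α * N ^ Fintype.card β) * (1 - 1 / (2 * (m : ℝ))) ^ 2 :=
          mul_lt_mul_of_pos_left key h6
    · have hb1 : Fintype.card β = 1 := by omega
      have hPne : P ≠ N • (1 : Matrix α α ℝ) := by
        rcases hcase with h | h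
        · exact absurd h hb2
        · exact h
      have hpN : (Fintype.card α : ℝ) = N - 1 := by
        have := hcardR
        rw [hb1] at this
        push_cast at this
        linarith
      -- an entry off the diagonal
      have hex : ∃ i j, i ≠ j ∧ P i j ≠ 0 := by
        by_contra hno
        push Not at hno
        exact hPne (MXB_.eq_smul_one P N hPd hno)
      obtain ⟨i, j, hij, hne⟩ := hex
      obtain ⟨z, hz⟩ := hPo i j hij
      have hz0 : z ≠ 0 := by
        rintro rfl
        apply hne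
        rw [hz]
        simp
      have hxe : ∃ i, x i ≤ -(1 / (m : ℝ)) := by
        obtain ⟨i₁, -, hi₁⟩ := Finset.exists_min_image (Finset.univ : Finset α) μ
          Finset.univ_nonempty
        have hl := hlow (μ i₁) (fun k => hi₁ k (Finset.mem_univ k))
        have hμ1 : μ i₁ ≤ 4 * m - 4 := by
          rcases lt_or_gt_of_ne hz0 with hneg | hpos
          · have h7 := hl (Pi.single i (1 : ℝ) - Pi.single j (-1 : ℝ))
            rw [MXB_.vv i j hij, MXB_.quad P i j _ (hPs i j), hPd, hPd, hz] at h7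
            have h8 : (z : ℝ) ≤ -1 := by exact_mod_cast (by omega : z ≤ -1)
            nlinarith
          · have h7 := hl (Pi.single i (1 : ℝ) - Pi.single j (1 : ℝ))
            rw [MXB_.vv i j hij, MXB_.quad P i j _ (hPs i j), hPd, hPd, hz] at h7
            have h8 : (1 : ℝ) ≤ z := by exact_mod_cast (by omega : 1 ≤ z)
            nlinarith
        refine ⟨i₁, ?_⟩
        have h9 : 1 + x i₁ ≤ 1 - 1 / (m : ℝ) := by
          rw [hx1, div_le_iff₀ hN0, hN]
          have : (1 - 1 / (m : ℝ)) * (4 * m) = 4 * m - 4 := by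
            field_simp
          rw [this]
          exact hμ1
        linarith
      have key := h4 α x m s (by linarith) hxm hsum hxe hsle hsex
      refine lt_of_le_of_lt (hS3 hb1) ?_
      rw [hprod, hpN, ← hBd]
      have e2 : N ^ (4 * m) = N ^ Fintype.card α * N := by
        rw [← hcard, hb1, pow_succ]
      have e3 : N - 4 * (N - 1) / c = N * (1 - (1 / (m : ℝ) - 1 / (4 * (m : ℝ) ^ 2)) / s) := by
        rw [hcN, hN]
        field_simp
      rw [e2, e3]
      have h6 : 0 < N ^ Fintype.card α * N := by positivity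
      calc (N ^ Fintype.card α * ∏ i, (1 + x i)) *
            (N * (1 - (1 / (m : ℝ) - 1 / (4 * (m : ℝ) ^ 2)) / s)) =
          (N ^ Fintype.card α * N) *
            ((∏ i, (1 + x i)) * (1 - (1 / (m : ℝ) - 1 / (4 * (m : ℝ) ^ 2)) / s)) := by ring
        _ < (N ^ Fintype.card α * N) * (1 - 1 / (2 * (m : ℝ))) ^ 2 :=
          mul_lt_mul_of_pos_left key h6
  by_cases hcase : 2 ≤ Fintype.card β ∨ P ≠ N • (1 : Matrix α α ℝ)
  · have h6 := hstrict hcase
    refine ⟨?_, fun h7 => ?_⟩
    · exact h6.le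
    · exact absurd h7 h6.ne
  · push Not at hcase
    obtain ⟨hb2, hPe⟩ := hcase
    have hb1 : Fintype.card β = 1 := by omega
    have hpN : (Fintype.card α : ℝ) = N - 1 := by
      have := hcardR
      rw [hb1] at this
      push_cast at this
      linarith
    obtain ⟨h6, h7⟩ := h3 α β N X Q hN0 hb1 hQd hX
    have hcα : Fintype.card α = 4 * m - 2 + 1 := by omega
    have e : N ^ Fintype.card α * (N - 4 * Fintype.card α / N) =
        (N - 2) ^ 2 * N ^ (4 * m - 2) := by
      rw [hpN, hcα, pow_succ]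
      have : N * (N - 4 * (N - 1) / N) = (N - 2) ^ 2 := by
        field_simp
        ring
      rw [← this]
      ring
    rw [e] at h6 h7
    rw [← hPe] at h6 h7
    exact ⟨h6, fun h8 => ⟨hb1, hPe, h7 h8⟩⟩

end Pool.Agent.TopDet
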