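import Mathlib
import Pool.Agent.TopDet.Targets

/-!
# PAR: the inner products modulo `4`
-/

namespace Pool.Agent.TopDet

open Finset Matrix

theorem p_PAR : T_PAR := by
  intro m A hA
  have hex : ∀ i j, ∃ a : ℤ, A i j = 1 - 2 * a := by
    intro i j
    rcases hA i j with h | h
    · exact ⟨0, by rw [h]; norm_num⟩
    · exact ⟨1, by rw [h]; norm_num⟩
  choose a ha using hex
  refine ⟨fun i => Even (∑ k, a i k), ?_⟩
  intro i j
  have key : (A * Aᵀ) i j =
      4 * m - 2 * (∑ k, a i k + ∑ k, a j k) + 4 * ∑ k, a i k * a j k := by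
    rw [Matrix.mul_apply]
    have h1 : ∀ k, A i k * Aᵀ k j = 1 - 2 * (a i k) - 2 * (a j k) + 4 * (a i k * a j k) := by
      intro k
      rw [Matrix.transpose_apply, ha i k, ha j k]
      ring
    rw [Finset.sum_congr rfl fun k _ => h1 k, Finset.sum_add_distrib, Finset.sum_sub_distrib,
      Finset.sum_sub_distrib, ← Finset.mul_sum, ← Finset.mul_sum, ← Finset.mul_sum]
    simp only [Finset.sum_const, Finset.card_univ, Fintype.card_fin, nsmul_eq_mul, mul_one]
    push_cast
    ring
  rw [key]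
  constructor
  · intro h
    have h2 : Even (∑ k, a i k + ∑ k, a j k) := Int.even_add.2 h
    obtain ⟨c, hc⟩ := h2
    rw [hc]
    exact ⟨m - c + ∑ k, a i k * a j k, by ring⟩
  · intro h
    have h2 : ¬ Even (∑ k, a i k + ∑ k, a j k) := fun h3 => h (Int.even_add.1 h3)
    rw [Int.not_even_iff_odd] at h2
    obtain ⟨c, hc⟩ := h2
    rw [hc]
    exact ⟨m - c - 1 + ∑ k, a i k * a j k, by ring⟩

end Pool.Agent.TopDet
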