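import Mathlib
import Pool.Agent.TopDet.Targets

set_option autoImplicit false

namespace Pool.Agent.TopDet

namespace SAME_

open Finset Matrix

theorem abs_le_sq (z : ℤ) : |z| ≤ z * z := by
  rcases eq_or_ne z 0 with rfl | hz
  · simp
  · have h1 : 1 ≤ |z| := Int.one_le_abs hz
    have h2 : z * z = |z| * |z| := (abs_mul_abs_self z).symm
    rw [h2]
    nlinarith

theorem sgn_sq {N : ℕ} {A : Matrix (Fin N) (Fin N) ℤ} (hA : Sgn A) (i j : Fin N) :
    A i j * A i j = 1 := by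
  rcases hA i j with h | h <;> rw [h] <;> norm_num

theorem sgn_abs {N : ℕ} {A : Matrix (Fin N) (Fin N) ℤ} (hA : Sgn A) (i j : Fin N) :
    |A i j| = 1 := by
  rcases hA i j with h | h <;> rw [h] <;> norm_num

theorem sgn_tr {N : ℕ} {A : Matrix (Fin N) (Fin N) ℤ} (hA : Sgn A) : Sgn Aᵀ :=
  fun i j => hA j i

theorem diag {N : ℕ} {A : Matrix (Fin N) (Fin N) ℤ} (hA : Sgn A) (i : Fin N) :
    (A * Aᵀ) i i = N := by
  rw [Matrix.mul_apply]
  rw [Finset.sum_congr rfl (fun j _ => by rw [Matrix.transpose_apply, sgn_sq hA i j] :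
    ∀ j ∈ Finset.univ, A i j * Aᵀ j i = 1)]
  simp

theorem exH {m : ℕ} {A : Matrix (Fin (4 * m)) (Fin (4 * m)) ℤ}
    (h : ∀ i j, (4 : ℤ) ∣ (A * Aᵀ) i j) (hA : Sgn A) :
    ∃ H : Matrix (Fin (4 * m)) (Fin (4 * m)) ℤ, Hᵀ = H ∧
      A * Aᵀ = (4 * m : ℤ) • (1 : Matrix (Fin (4 * m)) (Fin (4 * m)) ℤ) + (4 : ℤ) • H ∧
      H.trace = 0 := by
  have h2 : ∀ i j, ∃ z : ℤ, (A * Aᵀ) i j =
      (4 * m : ℤ) * (1 : Matrix (Fin (4 * m)) (Fin (4 * m)) ℤ) i j + 4 * z := by
    intro i j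
    obtain ⟨z, hz⟩ := h i j
    refine ⟨z - m * (1 : Matrix (Fin (4 * m)) (Fin (4 * m)) ℤ) i j, ?_⟩
    rw [hz]
    ring
  choose H hH using h2
  have hsym : ∀ i j, H i j = H j i := by
    intro i j
    have h3 : (A * Aᵀ) i j = (A * Aᵀ) j i := by
      have : (A * Aᵀ)ᵀ = A * Aᵀ := by
        rw [Matrix.transpose_mul, Matrix.transpose_transpose]
      rw [← this, Matrix.transpose_apply, this]
    have h4 : (1 : Matrix (Fin (4 * m)) (Fin (4 * m)) ℤ) i j =
        (1 : Matrix (Fin (4 * m)) (Fin (4 * m)) ℤ) j i := by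
      rw [Matrix.one_apply, Matrix.one_apply]
      simp only [eq_comm]
    have h5 := hH i j
    have h6 := hH j i
    rw [h3, h4] at h5
    linarith
  refine ⟨Matrix.of H, ?_, ?_, ?_⟩
  · ext i j
    exact hsym j i
  · ext i j
    rw [hH i j, Matrix.add_apply, Matrix.smul_apply, Matrix.smul_apply, smul_eq_mul, smul_eq_mul]
    rfl
  · unfold Matrix.trace
    refine Finset.sum_eq_zero (fun i _ => ?_)
    have h5 := hH i i
    rw [diag hA i, Matrix.one_apply_eq] at h5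
    rw [Matrix.diag_apply, Matrix.of_apply]
    push_cast at h5
    linarith

theorem trace_sq {N : ℕ} {H : Matrix (Fin N) (Fin N) ℤ} (hs : Hᵀ = H) :
    (H * H).trace = ∑ i, ∑ j, H i j * H i j := by
  rw [Matrix.trace]
  refine Finset.sum_congr rfl (fun i _ => ?_)
  rw [Matrix.diag_apply, Matrix.mul_apply]
  refine Finset.sum_congr rfl (fun j _ => ?_)
  have : H j i = H i j := by
    conv_lhs => rw [← hs]
    rfl
  rw [this]

theorem sumsq {N : ℕ} (M : Matrix (Fin N) (Fin N) ℤ) :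
    (M * Mᵀ).trace = ∑ i, ∑ j, M i j ^ 2 := by
  rw [Matrix.trace]
  refine Finset.sum_congr rfl (fun i _ => ?_)
  rw [Matrix.diag_apply, Matrix.mul_apply]
  refine Finset.sum_congr rfl (fun j _ => ?_)
  rw [Matrix.transpose_apply, sq]

theorem key_int {m : ℕ} {A H K : Matrix (Fin (4 * m)) (Fin (4 * m)) ℤ} (hA : Sgn A)
    (hH : Hᵀ = H) (hK : Kᵀ = K) (hHK : H * A = A * K)
    (hAA : A * Aᵀ = (4 * m : ℤ) • (1 : Matrix (Fin (4 * m)) (Fin (4 * m)) ℤ) + (4 : ℤ) • H)
    (htr : (H * H).trace = (K * K).trace) :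
    4 * m * (H * H).trace + 4 * (H * H * H).trace ≤ (H * H).trace ^ 2 := by
  have h1 : (H * A * (H * A)ᵀ).trace = 4 * m * (H * H).trace + 4 * (H * H * H).trace := by
    have : H * A * (H * A)ᵀ = (4 * m : ℤ) • (H * H) + (4 : ℤ) • (H * H * H) := by
      rw [Matrix.transpose_mul, hH]
      rw [show H * A * (Aᵀ * H) = H * (A * Aᵀ) * H by simp only [Matrix.mul_assoc]]
      rw [hAA]
      simp only [Matrix.mul_add, Matrix.add_mul, Matrix.mul_smul, Matrix.smul_mul,
        Matrix.mul_one]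
    rw [this, Matrix.trace_add, Matrix.trace_smul, Matrix.trace_smul]
    simp only [smul_eq_mul]
  rw [← h1, sumsq]
  have hb : ∀ i j, (H * A) i j ^ 2 ≤ (∑ l, |H i l|) * (∑ l, |K l j|) := by
    intro i j
    have e1 : |(H * A) i j| ≤ ∑ l, |H i l| := by
      rw [Matrix.mul_apply]
      refine (Finset.abs_sum_le_sum_abs _ _).trans ?_
      refine Finset.sum_le_sum (fun l _ => ?_)
      rw [abs_mul, sgn_abs hA, mul_one]
    have e2 : |(H * A) i j| ≤ ∑ l, |K l j| := by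
      rw [hHK, Matrix.mul_apply]
      refine (Finset.abs_sum_le_sum_abs _ _).trans ?_
      refine Finset.sum_le_sum (fun l _ => ?_)
      rw [abs_mul, sgn_abs hA, one_mul]
    calc (H * A) i j ^ 2 = |(H * A) i j| * |(H * A) i j| := by
          rw [abs_mul_abs_self, sq]
      _ ≤ _ := mul_le_mul e1 e2 (abs_nonneg _) (Finset.sum_nonneg (fun l _ => abs_nonneg _))
  have hd : ∑ i, ∑ l, |H i l| ≤ (H * H).trace := by
    rw [trace_sq hH]
    exact Finset.sum_le_sum (fun i _ => Finset.sum_le_sum (fun l _ => abs_le_sq _))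
  have hd' : ∑ j, ∑ l, |K l j| ≤ (H * H).trace := by
    rw [htr, trace_sq hK, Finset.sum_comm]
    exact Finset.sum_le_sum (fun i _ => Finset.sum_le_sum (fun l _ => abs_le_sq _))
  calc ∑ i, ∑ j, (H * A) i j ^ 2 ≤ ∑ i, ∑ j, (∑ l, |H i l|) * (∑ l, |K l j|) :=
        Finset.sum_le_sum (fun i _ => Finset.sum_le_sum (fun j _ => hb i j))
    _ = (∑ i, ∑ l, |H i l|) * (∑ j, ∑ l, |K l j|) := by
        rw [Finset.sum_mul]
        refine Finset.sum_congr rfl (fun i _ => ?_)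
        rw [Finset.mul_sum]
    _ ≤ (H * H).trace * (H * H).trace :=
        mul_le_mul hd hd'
          (Finset.sum_nonneg (fun j _ => Finset.sum_nonneg (fun l _ => abs_nonneg _)))
          ((Finset.sum_nonneg (fun j _ => Finset.sum_nonneg (fun l _ => abs_nonneg _))).trans hd)
    _ = (H * H).trace ^ 2 := (sq _).symm

theorem sq_trace {m : ℕ} {P H : Matrix (Fin (4 * m)) (Fin (4 * m)) ℤ}
    (hP : P = (4 * m : ℤ) • (1 : Matrix (Fin (4 * m)) (Fin (4 * m)) ℤ) + (4 : ℤ) • H)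
    (h0 : H.trace = 0) :
    (P * P).trace = 64 * m ^ 3 + 16 * (H * H).trace := by
  have : P * P = ((4 * m : ℤ) ^ 2) • (1 : Matrix (Fin (4 * m)) (Fin (4 * m)) ℤ) +
      (32 * m : ℤ) • H + (16 : ℤ) • (H * H) := by
    rw [hP]
    simp only [Matrix.mul_add, Matrix.add_mul, Matrix.mul_smul, Matrix.smul_mul,
        Matrix.mul_one, Matrix.one_mul]
    module
  rw [this, Matrix.trace_add, Matrix.trace_add, Matrix.trace_smul, Matrix.trace_smul,
    Matrix.trace_smul, h0, Matrix.trace_one]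
  simp only [smul_eq_mul, Fintype.card_fin]
  push_cast
  ring

theorem int_part {m : ℕ} {A : Matrix (Fin (4 * m)) (Fin (4 * m)) ℤ} (hA : Sgn A)
    (h1 : ∀ i j, (4 : ℤ) ∣ (A * Aᵀ) i j) (h2 : ∀ i j, (4 : ℤ) ∣ (Aᵀ * A) i j)
    (hnH : ¬ Had A) :
    ∃ H : Matrix (Fin (4 * m)) (Fin (4 * m)) ℤ,
      A * Aᵀ = (4 * m : ℤ) • (1 : Matrix (Fin (4 * m)) (Fin (4 * m)) ℤ) + (4 : ℤ) • H ∧
      H.trace = 0 ∧ (H * H).trace ≠ 0 ∧
      4 * m * (H * H).trace + 4 * (H * H * H).trace ≤ (H * H).trace ^ 2 := by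
  obtain ⟨H, hH1, hH2, hH3⟩ := exH h1 hA
  have h2' : ∀ i j, (4 : ℤ) ∣ (Aᵀ * Aᵀᵀ) i j := by
    rw [Matrix.transpose_transpose]
    exact h2
  obtain ⟨K, hK1, hK2, hK3⟩ := exH h2' (sgn_tr hA)
  rw [Matrix.transpose_transpose] at hK2
  refine ⟨H, hH2, hH3, ?_, ?_⟩
  · intro h0
    apply hnH
    refine ⟨hA, ?_⟩
    rw [trace_sq hH1] at h0
    have hz : H = 0 := by
      ext i j
      have e1 : ∀ i ∈ Finset.univ, 0 ≤ ∑ j, H i j * H i j :=
        fun i _ => Finset.sum_nonneg (fun j _ => mul_self_nonneg _)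
      have e2 := (Finset.sum_eq_zero_iff_of_nonneg e1).1 h0 i (Finset.mem_univ i)
      have e3 := (Finset.sum_eq_zero_iff_of_nonneg
        (fun j _ => mul_self_nonneg (H i j))).1 e2 j (Finset.mem_univ j)
      exact mul_self_eq_zero.1 e3
    rw [hH2, hz, smul_zero, add_zero]
    push_cast
    rfl
  · have htr : (H * H).trace = (K * K).trace := by
      have e1 := sq_trace hH2 hH3
      have e2 := sq_trace hK2 hK3
      have e3 : (A * Aᵀ * (A * Aᵀ)).trace = (Aᵀ * A * (Aᵀ * A)).trace := by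
        rw [show A * Aᵀ * (A * Aᵀ) = A * (Aᵀ * A * Aᵀ) by simp only [Matrix.mul_assoc],
          Matrix.trace_mul_comm]
        simp only [Matrix.mul_assoc]
      rw [e3] at e1
      linarith
    have hHK : H * A = A * K := by
      have e1 : A * Aᵀ * A = A * (Aᵀ * A) := Matrix.mul_assoc _ _ _
      rw [hH2, hK2] at e1
      simp only [Matrix.mul_add, Matrix.add_mul, Matrix.mul_smul, Matrix.smul_mul,
        Matrix.mul_one, Matrix.one_mul] at e1
      have e2 := add_left_cancel e1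
      ext i j
      have e3 := congrFun (congrFun e2 i) j
      simp only [Matrix.smul_apply, smul_eq_mul] at e3
      linarith
    exact key_int hA hH1 hK1 hHK hH2 htr

theorem map_trace {N : ℕ} (M : Matrix (Fin N) (Fin N) ℤ) :
    (M.map (Int.castRingHom ℝ)).trace = (M.trace : ℝ) := by
  unfold Matrix.trace
  push_cast
  rfl

end SAME_

open Finset Matrix SAME_

theorem p_SAME (h1 : T_EIG) (h2 : T_CN) : T_SAME := by
  intro m A hm hA hdet hr hc hnH
  obtain ⟨H, hH, ht1, ht2, hkey⟩ := int_part hA hr hc hnH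
  have hm0 : (0 : ℝ) < m := by
    have : 0 < m := by omega
    exact_mod_cast this
  have hm3 : (3 : ℝ) ≤ m := by exact_mod_cast hm
  -- real matrices
  let Ar : Matrix (Fin (4 * m)) (Fin (4 * m)) ℝ := A.map (Int.castRingHom ℝ)
  let Hr : Matrix (Fin (4 * m)) (Fin (4 * m)) ℝ := H.map (Int.castRingHom ℝ)
  have hdetr : Ar.det = (A.det : ℝ) := by
    have := (Int.castRingHom ℝ).map_det A
    exact this.symm
  have hHr : Ar * Arᵀ = (4 * m : ℝ) • (1 : Matrix (Fin (4 * m)) (Fin (4 * m)) ℝ) +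
      (4 : ℝ) • Hr := by
    ext i j
    have e1 := congrFun (congrFun hH i) j
    rw [Matrix.add_apply, Matrix.smul_apply, Matrix.smul_apply, smul_eq_mul, smul_eq_mul,
      Matrix.mul_apply] at e1
    rw [Matrix.add_apply, Matrix.smul_apply, Matrix.smul_apply, smul_eq_mul, smul_eq_mul,
      Matrix.mul_apply]
    have e2 : (∑ l, Ar i l * Arᵀ l j) = ((∑ l, A i l * Aᵀ l j : ℤ) : ℝ) := by
      push_cast
      rfl
    have e3 : (1 : Matrix (Fin (4 * m)) (Fin (4 * m)) ℝ) i j =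
        (((1 : Matrix (Fin (4 * m)) (Fin (4 * m)) ℤ) i j : ℤ) : ℝ) := by
      rw [Matrix.one_apply, Matrix.one_apply]
      split_ifs <;> simp
    rw [e2, e1, e3]
    push_cast
    rfl
  let S : Matrix (Fin (4 * m)) (Fin (4 * m)) ℝ := (1 / (4 * m) : ℝ) • (Ar * Arᵀ)
  have hS : S = 1 + (1 / m : ℝ) • Hr := by
    show (1 / (4 * m) : ℝ) • (Ar * Arᵀ) = _
    rw [hHr, smul_add, smul_smul, smul_smul]
    have e1 : (1 / (4 * m) : ℝ) * (4 * m) = 1 := by field_simp
    have e2 : (1 / (4 * m) : ℝ) * 4 = 1 / m := by field_simp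
    rw [e1, e2, one_smul]
  have hpd : S.PosDef := by
    have e1 : (Ar * Arᵀ).PosDef := by
      have := Matrix.PosDef.mul_conjTranspose_self Ar
        (Matrix.vecMul_injective_iff_isUnit.2 ?_)
      · rwa [Matrix.conjTranspose_eq_transpose_of_trivial] at this
      · rw [Matrix.isUnit_iff_isUnit_det, hdetr, isUnit_iff_ne_zero]
        exact_mod_cast hdet
    exact e1.smul (by positivity)
  obtain ⟨μ, hμ, d0, d1, d2, d3, -, -⟩ := h1 _ S hpd
  -- traces
  have t1 : Hr.trace = 0 := by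
    rw [map_trace, ht1]
    simp
  have t2 : (Hr * Hr).trace = ((H * H).trace : ℝ) := by
    rw [← map_trace, Matrix.map_mul]
  have t3 : (Hr * Hr * Hr).trace = ((H * H * H).trace : ℝ) := by
    rw [← map_trace, Matrix.map_mul, Matrix.map_mul]
  have s1 : S.trace = 4 * m := by
    rw [hS, Matrix.trace_add, Matrix.trace_smul, t1, Matrix.trace_one]
    simp
  have s2 : (S * S).trace = 4 * m + (H * H).trace / m ^ 2 := by
    have e1 : S * S = 1 + (2 / m : ℝ) • Hr + (1 / m ^ 2 : ℝ) • (Hr * Hr) := by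
      rw [hS]
      simp only [Matrix.mul_add, Matrix.add_mul, Matrix.mul_smul, Matrix.smul_mul,
        Matrix.mul_one, Matrix.one_mul]
      module
    rw [e1, Matrix.trace_add, Matrix.trace_add, Matrix.trace_smul, Matrix.trace_smul, t1, t2,
      Matrix.trace_one]
    simp only [smul_eq_mul, Fintype.card_fin]
    push_cast
    ring
  have s3 : (S * S * S).trace = 4 * m + 3 * (H * H).trace / m ^ 2 + (H * H * H).trace / m ^ 3 := by
    have e1 : S * S * S = 1 + (3 / m : ℝ) • Hr + (3 / m ^ 2 : ℝ) • (Hr * Hr) +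
        (1 / m ^ 3 : ℝ) • (Hr * Hr * Hr) := by
      rw [hS]
      simp only [Matrix.mul_add, Matrix.add_mul, Matrix.mul_smul, Matrix.smul_mul,
        Matrix.mul_one, Matrix.one_mul, smul_add, smul_smul]
      module
    rw [e1, Matrix.trace_add, Matrix.trace_add, Matrix.trace_add, Matrix.trace_smul,
      Matrix.trace_smul, Matrix.trace_smul, t1, t2, t3, Matrix.trace_one]
    simp only [smul_eq_mul, Fintype.card_fin]
    push_cast
    ring
  have hcard : ((Finset.univ : Finset (Fin (4 * m))).card : ℝ) = 4 * m := by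
    simp
  have x1 : ∑ i, (μ i - 1) = 0 := by
    rw [Finset.sum_sub_distrib, ← d1, s1]
    simp
  have x2 : ∑ i, (μ i - 1) ^ 2 = ((H * H).trace : ℝ) / (m : ℝ) ^ 2 := by
    have e1 : ∀ i, (μ i - 1) ^ 2 = μ i ^ 2 - 2 * μ i + 1 := fun i => by ring
    simp_rw [e1]
    rw [Finset.sum_add_distrib, Finset.sum_sub_distrib, ← Finset.mul_sum, ← d1, ← d2, s1, s2]
    simp
    ring
  have x3 : ∑ i, (μ i - 1) ^ 3 = ((H * H * H).trace : ℝ) / (m : ℝ) ^ 3 := by
    have e1 : ∀ i, (μ i - 1) ^ 3 = μ i ^ 3 - 3 * μ i ^ 2 + 3 * μ i - 1 := fun i => by ring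
    simp_rw [e1]
    rw [Finset.sum_sub_distrib, Finset.sum_add_distrib, Finset.sum_sub_distrib,
      ← Finset.mul_sum, ← Finset.mul_sum, ← d1, ← d2, ← d3, s1, s2, s3]
    simp
    ring
  have hne : ∃ i, μ i - 1 ≠ 0 := by
    by_contra hcon
    push Not at hcon
    have e1 : ∑ i, (μ i - 1) ^ 2 = (0 : ℝ) := by
      refine Finset.sum_eq_zero (fun i _ => ?_)
      rw [hcon i]
      norm_num
    rw [x2, div_eq_zero_iff] at e1
    rcases e1 with e1 | e1
    · exact ht2 (by exact_mod_cast e1)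
    · exact absurd e1 (by positivity)
  have hineq : ∑ i, (μ i - 1) ^ 2 + ∑ i, (μ i - 1) ^ 3 ≤
      (m : ℝ) / 4 * (∑ i, (μ i - 1) ^ 2) ^ 2 := by
    rw [x2, x3]
    have e1 : (4 * m * ((H * H).trace : ℝ) + 4 * ((H * H * H).trace : ℝ)) ≤
        ((H * H).trace : ℝ) ^ 2 := by
      exact_mod_cast hkey
    have e2 : ((H * H).trace : ℝ) / m ^ 2 + ((H * H * H).trace : ℝ) / m ^ 3 =
        (4 * m * ((H * H).trace : ℝ) + 4 * ((H * H * H).trace : ℝ)) / (4 * m ^ 3) := by
      field_simp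
    have e3 : (m : ℝ) / 4 * (((H * H).trace : ℝ) / m ^ 2) ^ 2 =
        ((H * H).trace : ℝ) ^ 2 / (4 * m ^ 3) := by
      field_simp
    rw [e2, e3]
    exact div_le_div_of_nonneg_right e1 (by positivity)
  have hfin := h2 _ (fun i => μ i - 1) m hm3 (fun i => by linarith [hμ i]) x1 hne hineq
  have hprod : ∏ i, (1 + (μ i - 1)) = S.det := by
    rw [d0]
    refine Finset.prod_congr rfl (fun i _ => by ring)
  have hSdet : S.det = (1 / (4 * m) : ℝ) ^ (4 * m) * (A.det : ℝ) ^ 2 := by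
    show ((1 / (4 * m) : ℝ) • (Ar * Arᵀ)).det = _
    rw [Matrix.det_smul, Matrix.det_mul, Matrix.det_transpose, hdetr, Fintype.card_fin]
    ring
  rw [hprod, hSdet] at hfin
  have hN : (0 : ℝ) < (4 * m : ℝ) ^ (4 * m) := by positivity
  have hA2 : (A.det : ℝ) ^ 2 = (4 * m : ℝ) ^ (4 * m) *
      ((1 / (4 * m) : ℝ) ^ (4 * m) * (A.det : ℝ) ^ 2) := by
    rw [← mul_assoc, ← mul_pow]
    have : (4 * m : ℝ) * (1 / (4 * m)) = 1 := by field_simp
    rw [this, one_pow, one_mul]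
  rw [hA2]
  calc _ < (4 * m : ℝ) ^ (4 * m) * (1 - 1 / (2 * m)) ^ 2 := by
        exact mul_lt_mul_of_pos_left hfin hN
    _ = (4 * m - 2) ^ 2 * (4 * m) ^ (4 * m - 2) := by
        have e1 : (4 * m : ℝ) ^ (4 * m) = (4 * m : ℝ) ^ (4 * m - 2) * (4 * m : ℝ) ^ 2 := by
          rw [← pow_add]
          congr 1
          omega
        rw [e1]
        have e2 : (4 * m : ℝ) ^ 2 * (1 - 1 / (2 * m)) ^ 2 = (4 * m - 2) ^ 2 := by
          rw [← mul_pow]
          congr 1
          field_simp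
          ring
        rw [mul_assoc, e2]
        ring

end Pool.Agent.TopDet
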