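import Mathlib
import Pool.Agent.TopDet.Targets

set_option autoImplicit false

/-!
# The top of the determinant spectrum: the case of orthogonal rows (SC1)
-/

namespace Pool.Agent.TopDet

open Finset Matrix

theorem p_SC1 : T_SC1 := by
  intro α β _ _ _ _ N X Q hN hβ hQ hX
  obtain ⟨j0, hj0⟩ := Fintype.card_eq_one_iff.mp hβ
  let _ : Unique β := ⟨⟨j0⟩, hj0⟩
  have hNu : IsUnit (N • (1 : Matrix α α ℝ)) := by
    refine ⟨⟨N • 1, N⁻¹ • 1, ?_, ?_⟩, rfl⟩
    · rw [Matrix.smul_mul, Matrix.mul_smul, Matrix.one_mul, smul_smul, mul_inv_cancel₀ hN.ne',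
        one_smul]
    · rw [Matrix.smul_mul, Matrix.mul_smul, Matrix.one_mul, smul_smul, inv_mul_cancel₀ hN.ne',
        one_smul]
  let _ : Invertible (N • (1 : Matrix α α ℝ)) := ⟨N⁻¹ • 1, by
    rw [Matrix.smul_mul, Matrix.mul_smul, Matrix.one_mul, smul_smul, inv_mul_cancel₀ hN.ne',
        one_smul], by
    rw [Matrix.smul_mul, Matrix.mul_smul, Matrix.one_mul, smul_smul, mul_inv_cancel₀ hN.ne',
        one_smul]⟩
  have hdet : (Matrix.fromBlocks (N • (1 : Matrix α α ℝ)) X Xᵀ Q).det =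
      N ^ Fintype.card α * (N - (∑ i, X i j0 ^ 2) / N) := by
    rw [Matrix.det_fromBlocks₁₁, Matrix.det_smul, Matrix.det_one, mul_one, Matrix.det_unique]
    congr 1
    have hd : (default : β) = j0 := (hj0 _)
    rw [hd, Matrix.sub_apply, hQ]
    congr 1
    have hinv : ⅟(N • (1 : Matrix α α ℝ)) = N⁻¹ • 1 := rfl
    rw [hinv, Matrix.mul_smul, Matrix.mul_one, Matrix.smul_mul, Matrix.smul_apply,
      Matrix.mul_apply, smul_eq_mul, div_eq_inv_mul]
    congr 1
    exact sum_congr rfl fun i _ => by rw [Matrix.transpose_apply]; ring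
  have hsq : ∀ i, 4 ≤ X i j0 ^ 2 := fun i => by
    have h := hX i j0
    rw [← sq_abs]; nlinarith
  have hsum : 4 * (Fintype.card α : ℝ) ≤ ∑ i, X i j0 ^ 2 := by
    have h : ∑ _i : α, (4 : ℝ) ≤ ∑ i, X i j0 ^ 2 := sum_le_sum fun i _ => hsq i
    rw [sum_const, card_univ, nsmul_eq_mul] at h
    linarith
  have hNp : 0 < N ^ Fintype.card α := pow_pos hN _
  constructor
  · rw [hdet]
    refine mul_le_mul_of_nonneg_left ?_ hNp.le
    have := div_le_div_of_nonneg_right hsum hN.le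
    linarith
  · intro h i j
    rw [hdet] at h
    have h1 := mul_left_cancel₀ hNp.ne' h
    have h2 : ∑ i, X i j0 ^ 2 = 4 * (Fintype.card α : ℝ) := by
      have h3 : (∑ i, X i j0 ^ 2) / N = 4 * (Fintype.card α : ℝ) / N := by linarith
      exact (div_left_inj' hN.ne').mp h3
    have h4 : ∑ i, (X i j0 ^ 2 - 4) = 0 := by
      rw [sum_sub_distrib, h2, sum_const, card_univ, nsmul_eq_mul]; ring
    have h5 := (sum_eq_zero_iff_of_nonneg fun i _ => by linarith [hsq i]).mp h4 i (mem_univ i)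
    rw [hj0 j]
    have h6 : |X i j0| ^ 2 = 2 ^ 2 := by rw [sq_abs]; linarith
    exact (pow_left_inj₀ (abs_nonneg _) (by norm_num) two_ne_zero).mp h6

end Pool.Agent.TopDet
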