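import Mathlib
import Pool.Agent.TopDet.Targets

set_option autoImplicit false

/-!
# The top of the determinant spectrum: determinant bound from the Schur complement (SCH)
-/

namespace Pool.Agent.TopDet

open Finset Matrix

namespace SCH_

/-- The determinant of a positive semidefinite matrix is bounded by means of the trace. -/
theorem det_le {β : Type} [Fintype β] [DecidableEq β] (N : ℝ) (hN : 0 < N) (W : Matrix β β ℝ)
    (hW : W.PosSemidef) :
    W.det ≤ N ^ Fintype.card β * Real.exp (W.trace / N - Fintype.card β) := by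
  have hH : W.IsHermitian := hW.isHermitian
  have hd : W.det = ∏ i, hH.eigenvalues i := by simpa using hH.det_eq_prod_eigenvalues
  have ht : W.trace = ∑ i, hH.eigenvalues i := by simpa using hH.trace_eq_sum_eigenvalues
  rw [hd, ht]
  have h1 : ∏ i, hH.eigenvalues i ≤ ∏ i, (N * Real.exp (hH.eigenvalues i / N - 1)) := by
    refine prod_le_prod (fun i _ => hW.eigenvalues_nonneg i) fun i _ => ?_
    have h2 := Real.add_one_le_exp (hH.eigenvalues i / N - 1)
    have h3 : hH.eigenvalues i / N ≤ Real.exp (hH.eigenvalues i / N - 1) := by linarith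
    rw [div_le_iff₀ hN] at h3
    linarith
  refine h1.trans (le_of_eq ?_)
  rw [prod_mul_distrib, prod_const, card_univ, ← Real.exp_sum, sum_sub_distrib, sum_const,
    card_univ, nsmul_eq_mul, mul_one, sum_div]

end SCH_

theorem p_SCH : T_SCH := by
  intro α β _ _ _ _ N c P X Q hN hc hB hQ hX hv
  have hP : P.PosDef := by
    have h := hB.submatrix (e := (Sum.inl : α → α ⊕ β)) Sum.inl_injective
    have he : (Matrix.fromBlocks P X Xᵀ Q).submatrix Sum.inl Sum.inl = P := by
      ext i j; rfl
    rwa [he] at h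
  have hPdet : 0 < P.det := hP.det_pos
  have hPu : IsUnit P.det := isUnit_iff_ne_zero.mpr hPdet.ne'
  let _ : Invertible P := Matrix.invertibleOfIsUnitDet P hPu
  set W : Matrix β β ℝ := Q - Xᵀ * P⁻¹ * X with hWdef
  have hW : W.PosSemidef := by
    have h := (Matrix.PosDef.fromBlocks₁₁ X Q hP).mp (by
      rw [Matrix.conjTranspose_eq_transpose_of_trivial]; exact hB.posSemidef)
    rwa [Matrix.conjTranspose_eq_transpose_of_trivial] at h
  have hdet : (Matrix.fromBlocks P X Xᵀ Q).det = P.det * W.det := by
    rw [Matrix.det_fromBlocks₁₁, Matrix.invOf_eq_nonsing_inv]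
  have hdiag : ∀ j, W j j ≤ N - 4 * Fintype.card α / c := by
    intro j
    have h1 : W j j = N - (fun i => X i j) ⬝ᵥ (P⁻¹).mulVec (fun i => X i j) := by
      rw [hWdef, Matrix.sub_apply, hQ]
      congr 1
      rw [Matrix.mul_assoc, Matrix.mul_apply, dotProduct]
      refine sum_congr rfl fun i _ => ?_
      rw [Matrix.transpose_apply]
      rfl
    have h2 := hv (fun i => X i j)
    have h3 : 4 * (Fintype.card α : ℝ) ≤ (fun i => X i j) ⬝ᵥ (fun i => X i j) := by
      have h : ∑ _i : α, (4 : ℝ) ≤ ∑ i, X i j * X i j := sum_le_sum fun i _ => by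
        have h := hX i j
        rw [← abs_mul_abs_self]; nlinarith
      rw [sum_const, card_univ, nsmul_eq_mul] at h
      rw [dotProduct]; linarith
    rw [h1]
    have h4 : 4 * (Fintype.card α : ℝ) / c ≤
        (fun i => X i j) ⬝ᵥ (P⁻¹).mulVec (fun i => X i j) := by
      rw [div_le_iff₀ hc]; linarith
    linarith
  refine ⟨hPdet, ?_, ?_⟩
  · rw [hdet]
    refine mul_le_mul_of_nonneg_left ?_ hPdet.le
    refine (SCH_.det_le N hN W hW).trans ?_
    refine mul_le_mul_of_nonneg_left (Real.exp_le_exp.mpr ?_) (pow_pos hN _).le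
    have h1 : W.trace ≤ Fintype.card β * (N - 4 * Fintype.card α / c) := by
      have h : ∑ j, W j j ≤ ∑ _j : β, (N - 4 * (Fintype.card α : ℝ) / c) :=
        sum_le_sum fun j _ => hdiag j
      rw [sum_const, card_univ, nsmul_eq_mul] at h
      exact h
    have h2 := div_le_div_of_nonneg_right h1 hN.le
    have h3 : (Fintype.card β : ℝ) * (N - 4 * Fintype.card α / c) / N - Fintype.card β =
        -(4 * Fintype.card α * Fintype.card β / (N * c)) := by
      field_simp; ring
    linarith
  · intro hβ
    obtain ⟨j0, hj0⟩ := Fintype.card_eq_one_iff.mp hβ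
    let _ : Unique β := ⟨⟨j0⟩, hj0⟩
    rw [hdet]
    refine mul_le_mul_of_nonneg_left ?_ hPdet.le
    rw [Matrix.det_unique]
    exact hdiag _

end Pool.Agent.TopDet
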