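import Pool.Agent.TopDet.Targets

set_option autoImplicit false

/-!
# The top of the spectrum
-/

namespace Pool.Agent.TopDet

open Finset Matrix

namespace TOP_

lemma num1 (m n : ℕ) (hm : 3 ≤ m) (hn : n + 1 = 4 * m) :
    2 ^ n * ((2 * m - 1) * m ^ (2 * m - 1)) = (4 * m - 2) * (4 * m) ^ (2 * m - 1) := by
  obtain ⟨k, rfl⟩ : ∃ k, m = k + 1 := ⟨m - 1, by omega⟩
  have e1 : 2 * (k + 1) - 1 = 2 * k + 1 := by omega
  have e2 : 4 * (k + 1) - 2 = 2 * (2 * k + 1) := by omega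
  have e3 : n = 2 * (2 * k + 1) + 1 := by omega
  rw [e1, e2, e3, mul_pow, pow_succ, pow_mul]
  norm_num
  ring

lemma num2 (m n : ℕ) (hm : 3 ≤ m) (hn : n + 1 = 4 * m) :
    2 ^ n * (2 * m ^ (2 * m)) = (4 * m) ^ (2 * m) := by
  have e1 : 2 ^ n * (2 * m ^ (2 * m)) = 2 ^ (n + 1) * m ^ (2 * m) := by
    rw [pow_succ]; ring
  rw [e1, hn, mul_pow]
  congr 1
  have e2 : 4 * m = 2 * (2 * m) := by ring
  rw [e2, pow_mul]
  norm_num

lemma num3 (m : ℕ) (hm : 3 ≤ m) : (2 * m - 1) * m ^ (2 * m - 1) ≤ 2 * m ^ (2 * m) := by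
  obtain ⟨k, rfl⟩ : ∃ k, m = k + 1 := ⟨m - 1, by omega⟩
  have e1 : 2 * (k + 1) - 1 = 2 * k + 1 := by omega
  have e2 : 2 * (k + 1) = (2 * k + 1) + 1 := by omega
  rw [e1, e2, pow_succ]
  have h : 2 * k + 1 ≤ 2 * (k + 1) := by omega
  calc (2 * k + 1) * (k + 1) ^ (2 * k + 1) ≤ (2 * (k + 1)) * (k + 1) ^ (2 * k + 1) :=
        Nat.mul_le_mul_right _ h
    _ = _ := by ring

end TOP_

open TOP_ in
theorem p_TOP (h1 : T_CLS) (h2 : T_HD) (h3 : T_TRA) : T_TOP := by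
  intro m n hm hn
  have hb : 0 < (2 * m - 1) * m ^ (2 * m - 1) :=
    Nat.mul_pos (by omega) (Nat.pow_pos (by omega))
  have hv2 : 0 < 2 * m ^ (2 * m) := Nat.mul_pos (by norm_num) (Nat.pow_pos (by omega))
  have h2n : 0 < 2 ^ n := Nat.pow_pos (by norm_num)
  have hTRA : ∀ v : ℕ, v ≠ 0 → (v ∈ detSpectrum n ↔
      ∃ A : Matrix (Fin (4 * m)) (Fin (4 * m)) ℤ, Sgn A ∧ A.det.natAbs = 2 ^ n * v) := by
    intro v hv
    have h := h3 n v hv
    rw [hn] at h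
    exact h
  have key : ∀ v, v ∈ detSpectrum n → (2 * m - 1) * m ^ (2 * m - 1) ≤ v →
      (∃ B : Matrix (Fin (4 * m)) (Fin (4 * m)) ℤ, Had B) ∧
      (v = (2 * m - 1) * m ^ (2 * m - 1) ∨ v = 2 * m ^ (2 * m)) := by
    intro v hv hvb
    obtain ⟨A, hA, hdet⟩ := (hTRA v (by omega)).mp hv
    have hle : (4 * m - 2) * (4 * m) ^ (2 * m - 1) ≤ A.det.natAbs := by
      rw [hdet, ← num1 m n hm hn]
      exact Nat.mul_le_mul_left _ hvb
    rcases h1 m A hm hA hle with hH | ⟨B, i, j, hB, hAB⟩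
    · refine ⟨⟨A, hH⟩, Or.inr ?_⟩
      have h4 := (h2 m A (by omega) hH).2.1
      rw [hdet, ← num2 m n hm hn] at h4
      exact Nat.eq_of_mul_eq_mul_left h2n h4
    · refine ⟨⟨B, hB⟩, Or.inl ?_⟩
      have h4 := ((h2 m B (by omega) hB).2.2 i j).2
      rw [← hAB, hdet, ← num1 m n hm hn] at h4
      exact Nat.eq_of_mul_eq_mul_left h2n h4
  constructor
  · rintro ⟨B, hB⟩
    obtain ⟨_, hdB, hfl⟩ := h2 m B (by omega) hB
    ext v
    simp only [Set.mem_inter_iff, Set.mem_Ici, Set.mem_insert_iff, Set.mem_singleton_iff]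
    constructor
    · rintro ⟨hv, hvb⟩
      exact (key v hv hvb).2
    · rintro (rfl | rfl)
      · refine ⟨?_, le_refl _⟩
        rw [hTRA _ (by omega)]
        have h0 : 0 < 4 * m := by omega
        refine ⟨flip B ⟨0, h0⟩ ⟨0, h0⟩, (hfl _ _).1, ?_⟩
        rw [(hfl _ _).2, num1 m n hm hn]
      · refine ⟨?_, num3 m hm⟩
        rw [hTRA _ (by omega)]
        refine ⟨B, hB.1, ?_⟩
        rw [hdB, num2 m n hm hn]
  · intro hno
    ext v
    simp only [Set.mem_inter_iff, Set.mem_Ici, Set.mem_empty_iff_false, iff_false]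
    rintro ⟨hv, hvb⟩
    exact hno (key v hv hvb).1

end Pool.Agent.TopDet
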