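import Pool.Agent.TopDet.Targets

/-!
# TOPD-TRA: matrices with entries 0, 1 and matrices with entries 1, -1
-/

set_option autoImplicit false

namespace Pool.Agent.TopDet

namespace TRA_

/-- the transformation matrix -/
def Um (n : ℕ) : Matrix (Fin (n + 1)) (Fin (n + 1)) ℤ :=
  Matrix.of fun i j => Fin.cases (motive := fun _ => ℤ) 1
    (fun k => Fin.cases (motive := fun _ => ℤ) 0 (fun l => if l = k then -2 else 0) j) i

theorem Um_zero (n : ℕ) (j : Fin (n + 1)) : Um n 0 j = 1 := rfl
theorem Um_succ_zero (n : ℕ) (k : Fin n) : Um n k.succ 0 = 0 := rfl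
theorem Um_succ_succ (n : ℕ) (k l : Fin n) : Um n k.succ l.succ = if l = k then -2 else 0 := rfl

theorem det_Um (n : ℕ) : (Um n).det = (-2) ^ n := by
  have h : (Um n).BlockTriangular id := by
    intro i j hij
    simp only [id] at hij
    induction i using Fin.cases with
    | zero => exact absurd hij (Fin.not_lt_zero _)
    | succ k =>
      induction j using Fin.cases with
      | zero => rfl
      | succ l =>
        rw [Um_succ_succ, if_neg]
        rintro rfl
        exact absurd hij (lt_irrefl _)
  rw [Matrix.det_of_isUpperTriangular h, Fin.prod_univ_succ, Um_zero, one_mul]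
  simp [Um_succ_succ]

/-- the matrix with entries `1, -1` -/
def sm {n : ℕ} (R : Fin (n + 1) → (Fin n → Bool)) : Matrix (Fin (n + 1)) (Fin (n + 1)) ℤ :=
  Matrix.of fun i j => Fin.cases (motive := fun _ => ℤ) 1 (fun k => if R i k then -1 else 1) j

theorem sm_zero {n : ℕ} (R : Fin (n + 1) → (Fin n → Bool)) (i : Fin (n + 1)) :
    sm R i 0 = 1 := rfl
theorem sm_succ {n : ℕ} (R : Fin (n + 1) → (Fin n → Bool)) (i : Fin (n + 1)) (k : Fin n) :
    sm R i k.succ = if R i k then -1 else 1 := rfl
theorem bm_zero {n : ℕ} (R : Fin (n + 1) → (Fin n → Bool)) (i : Fin (n + 1)) :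
    borderedMatrix R i 0 = 1 := rfl
theorem bm_succ {n : ℕ} (R : Fin (n + 1) → (Fin n → Bool)) (i : Fin (n + 1)) (k : Fin n) :
    borderedMatrix R i k.succ = if R i k then 1 else 0 := rfl

theorem sm_eq {n : ℕ} (R : Fin (n + 1) → (Fin n → Bool)) :
    sm R = borderedMatrix R * Um n := by
  ext i j
  rw [Matrix.mul_apply, Fin.sum_univ_succ, bm_zero, Um_zero, one_mul]
  induction j using Fin.cases with
  | zero =>
    rw [sm_zero]
    simp [Um_succ_zero]
  | succ l =>
    rw [sm_succ]
    have h : ∀ k : Fin n, borderedMatrix R i k.succ * Um n k.succ l.succ =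
        if k = l then (if R i l then -2 else 0) else 0 := by
      intro k
      rw [bm_succ, Um_succ_succ]
      by_cases hkl : k = l
      · subst hkl
        rw [if_pos rfl, if_pos rfl]
        by_cases hR : R i k = true
        · rw [if_pos hR, if_pos hR]; norm_num
        · rw [if_neg hR, if_neg hR]; norm_num
      · have hkl' : ¬ l = k := fun h => hkl h.symm
        rw [if_neg hkl, if_neg hkl', mul_zero]
    rw [Finset.sum_congr rfl (fun k _ => h k), Finset.sum_ite_eq' Finset.univ l,
      if_pos (Finset.mem_univ l)]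
    by_cases hR : R i l <;> simp [hR]

theorem natAbs_sm {n : ℕ} (R : Fin (n + 1) → (Fin n → Bool)) :
    (sm R).det.natAbs = 2 ^ n * (borderedMatrix R).det.natAbs := by
  rw [sm_eq, Matrix.det_mul, det_Um, Int.natAbs_mul, Int.natAbs_pow, mul_comm]
  norm_num

theorem sgn_sm {n : ℕ} (R : Fin (n + 1) → (Fin n → Bool)) : Sgn (sm R) := by
  intro i j
  induction j using Fin.cases with
  | zero => exact Or.inl rfl
  | succ l =>
    rw [sm_succ]
    by_cases hR : R i l
    · right; simp [hR]
    · left; simp [hR]

end TRA_

open TRA_ in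
/-- TRA: matrices with entries `0, 1` and matrices with entries `1, -1`. -/
theorem p_TRA : T_TRA := by
  intro n v hv
  constructor
  · rintro ⟨R, _, rfl⟩
    exact ⟨sm R, sgn_sm R, natAbs_sm R⟩
  · rintro ⟨A, hA, hdet⟩
    set R : Fin (n + 1) → (Fin n → Bool) := fun i k => decide (A i 0 * A i k.succ = -1) with hR
    have h1 : sm R = Matrix.diagonal (fun i => A i 0) * A := by
      ext i j
      rw [Matrix.diagonal_mul]
      induction j using Fin.cases with
      | zero =>
        rw [sm_zero]
        rcases hA i 0 with h | h <;> rw [h] <;> norm_num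
      | succ l =>
        rw [sm_succ]
        simp only [hR, decide_eq_true_eq]
        rcases hA i 0 with h | h <;> rcases hA i l.succ with h' | h' <;> rw [h, h'] <;> norm_num
    have h2 : (sm R).det.natAbs = A.det.natAbs := by
      rw [h1, Matrix.det_mul, Matrix.det_diagonal, Int.natAbs_mul]
      have h3 : (∏ i, A i 0).natAbs = 1 := by
        have h4 : (∏ i, A i 0) * (∏ i, A i 0) = 1 := by
          rw [← Finset.prod_mul_distrib]
          apply Finset.prod_eq_one
          intro i _
          rcases hA i 0 with h | h <;> rw [h] <;> norm_num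
        exact Int.natAbs_eq_of_dvd_dvd ⟨_, h4.symm⟩ (one_dvd _) |>.symm ▸ rfl
      rw [h3, one_mul]
    rw [natAbs_sm, hdet] at h2
    have h4 : (borderedMatrix R).det.natAbs = v :=
      Nat.eq_of_mul_eq_mul_left (by positivity) h2
    refine ⟨R, ?_, h4⟩
    intro i i' hii
    by_contra hne
    have h5 : (borderedMatrix R).det = 0 := by
      apply Matrix.det_zero_of_row_eq hne
      funext j
      induction j using Fin.cases with
      | zero => rfl
      | succ l => rw [bm_succ, bm_succ, hii]
    rw [h5] at h4
    exact hv h4.symm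

end Pool.Agent.TopDet
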