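import Pool.Agent.TopDet.Targets

set_option autoImplicit false

/-!
# The top of the determinant spectrum (MP_ef01bd_co): CN
-/

namespace Pool.Agent.TopDet

open Finset Matrix

namespace CN_

/-- comparison with the logarithm by derivatives -/
theorem log_le (f f' : ℝ → ℝ) (h0 : f 0 = 0) (hf : ∀ x : ℝ, 0 ≤ x → HasDerivAt f (f' x) x)
    (h : ∀ x : ℝ, 0 ≤ x → 1 / (1 + x) ≤ f' x) (x : ℝ) (hx : 0 ≤ x) : Real.log (1 + x) ≤ f x := by
  have hd : ∀ y : ℝ, 0 ≤ y →
      HasDerivAt (fun z => f z - Real.log (1 + z)) (f' y - 1 / (1 + y)) y := by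
    intro y hy
    refine (hf y hy).sub ?_
    have h1 : HasDerivAt (fun z : ℝ => 1 + z) 1 y := (hasDerivAt_id y).const_add 1
    exact h1.log (by linarith)
  have hm : MonotoneOn (fun z => f z - Real.log (1 + z)) (Set.Ici 0) := by
    refine monotoneOn_of_deriv_nonneg (convex_Ici 0)
      (fun y hy => (hd y hy).continuousAt.continuousWithinAt)
      (fun y hy => (hd y (interior_subset hy)).differentiableAt.differentiableWithinAt)
      fun y hy => ?_
    rw [(hd y (interior_subset hy)).deriv]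
    exact sub_nonneg.2 (h y (interior_subset hy))
  have h1 := hm (Set.mem_Ici.2 le_rfl) (Set.mem_Ici.2 hx) hx
  simp only [h0, add_zero, Real.log_one, sub_zero] at h1
  linarith

theorem log_cubic (x : ℝ) (hx : 0 ≤ x) : Real.log (1 + x) ≤ x - x ^ 2 / 2 + x ^ 3 / 3 := by
  refine log_le (fun x => x - x ^ 2 / 2 + x ^ 3 / 3) (fun x => 1 - x + x ^ 2) (by norm_num)
    (fun y _ => ?_) (fun y hy => ?_) x hx
  · have h1 := ((hasDerivAt_id y).sub ((hasDerivAt_pow 2 y).div_const 2)).add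
      ((hasDerivAt_pow 3 y).div_const 3)
    have h2 : (1 : ℝ) - y + y ^ 2 = 1 - ((2 : ℕ) : ℝ) * y ^ (2 - 1) / 2 +
        ((3 : ℕ) : ℝ) * y ^ (3 - 1) / 3 := by
      norm_num
    rw [h2]
    exact h1
  · rw [div_le_iff₀ (by linarith)]
    have : 0 ≤ y ^ 3 := by positivity
    nlinarith

theorem log_pade (x : ℝ) (hx : 0 ≤ x) : Real.log (1 + x) ≤ x * (6 + x) / (6 + 4 * x) := by
  refine log_le (fun x => x * (6 + x) / (6 + 4 * x))
    (fun x => (36 + 12 * x + 4 * x ^ 2) / (6 + 4 * x) ^ 2) (by norm_num)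
    (fun y hy => ?_) (fun y hy => ?_) x hx
  · have h1 : HasDerivAt (fun z : ℝ => z * (6 + z)) (1 * (6 + y) + y * 1) y :=
      (hasDerivAt_id y).mul ((hasDerivAt_id y).const_add 6)
    have h2 : HasDerivAt (fun z : ℝ => 6 + 4 * z) (4 * 1) y :=
      ((hasDerivAt_id y).const_mul 4).const_add 6
    have h3 := h1.div h2 (by positivity)
    have h4 : (36 + 12 * y + 4 * y ^ 2) / (6 + 4 * y) ^ 2 =
        ((1 * (6 + y) + y * 1) * (6 + 4 * y) - y * (6 + y) * (4 * 1)) / (6 + 4 * y) ^ 2 := by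
      congr 1
      ring
    rw [h4]
    exact h3
  · rw [div_le_div_iff₀ (by linarith) (by positivity)]
    have : 0 ≤ y ^ 3 := by positivity
    nlinarith

theorem series (t : ℝ) (h0 : 0 ≤ t) (h1 : t < 1) :
    t + t ^ 2 / 2 + t ^ 3 / 3 + t ^ 4 / 4 + t ^ 5 / 5 ≤ -Real.log (1 - t) := by
  have h2 := Real.hasSum_pow_div_log_of_abs_lt_one (x := t) (by rw [abs_of_nonneg h0]; exact h1)
  have h3 := sum_le_hasSum (range 5) (fun i _ => by positivity) h2
  simp only [sum_range_succ, sum_range_zero] at h3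
  norm_num at h3
  linarith

/-- the excess function -/
noncomputable def ph (x : ℝ) : ℝ := x - Real.log (1 + x)

theorem ph_nonneg {x : ℝ} (hx : -1 < x) : 0 ≤ ph x := by
  have := Real.log_le_sub_one_of_pos (show 0 < 1 + x by linarith)
  unfold ph
  linarith

theorem ph_neg5 {t : ℝ} (h0 : 0 ≤ t) (h1 : t < 1) :
    t ^ 2 / 2 + (t ^ 3 / 3 + t ^ 4 / 4 + t ^ 5 / 5) ≤ ph (-t) := by
  have h := series t h0 h1
  unfold ph
  rw [← sub_eq_add_neg]
  linarith

theorem ph_neg {x : ℝ} (hx : -1 < x) (h0 : x ≤ 0) : x ^ 2 / 2 ≤ ph x := by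
  have h := ph_neg5 (t := -x) (by linarith) (by linarith)
  rw [neg_neg] at h
  have h1 : 0 ≤ (-x) ^ 3 := pow_nonneg (by linarith) 3
  have h2 : 0 ≤ (-x) ^ 4 := pow_nonneg (by linarith) 4
  have h3 : 0 ≤ (-x) ^ 5 := pow_nonneg (by linarith) 5
  have h4 : (-x) ^ 2 = x ^ 2 := neg_sq x
  rw [h4] at h
  linarith

theorem ph_pos {x : ℝ} (h0 : 0 ≤ x) : x ^ 2 / 2 - x ^ 3 / 3 ≤ ph x := by
  have h := log_cubic x h0
  unfold ph
  linarith

theorem ph_pade {x : ℝ} (h0 : 0 ≤ x) : 3 * x ^ 2 / (6 + 4 * x) ≤ ph x := by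
  have h := log_pade x h0
  unfold ph
  have h1 : 3 * x ^ 2 / (6 + 4 * x) = x - x * (6 + x) / (6 + 4 * x) := by
    field_simp
    ring
  rw [h1]
  linarith

/-- numerical bound for the logarithm -/
theorem log_num {u : ℝ} (h0 : 0 < u) (h1 : u ≤ 1 / 6) : -Real.log (1 - u) < 111 / 100 * u := by
  set y := 111 / 100 * u with hy
  have hy0 : 0 ≤ y := by positivity
  have h2 := Real.quadratic_le_exp_of_nonneg hy0
  have h3 : 0 < Real.exp y := Real.exp_pos y
  have h4 : 1 < (1 - u) * Real.exp y := by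
    have h5 : (1 - u) * (1 + y + y ^ 2 / 2) ≤ (1 - u) * Real.exp y :=
      mul_le_mul_of_nonneg_left h2 (by linarith)
    refine lt_of_lt_of_le ?_ h5
    rw [hy]
    nlinarith [mul_pos h0 h0, mul_pos (mul_pos h0 h0) h0]
  have h6 := Real.log_pos h4
  rw [Real.log_mul (by linarith) h3.ne', Real.log_exp] at h6
  linarith

/-- the final polynomial inequality -/
theorem poly {t u : ℝ} (ht0 : 0 ≤ t) (ht1 : t ≤ 1) (hu0 : 0 < u) (hu1 : u ≤ 1 / 6) :
    222 / 100 * u ≤ 4 * u * (1 - t) + (t ^ 3 / 3 + t ^ 4 / 4 + t ^ 5 / 5) := by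
  have h3 : 0 ≤ (t - 29 / 50) ^ 2 * (t + 2 * (29 / 50)) := by positivity
  have h4 : 0 ≤ (t - 29 / 50) ^ 2 * (t ^ 2 + 2 * (29 / 50) * t + 3 * (29 / 50) ^ 2) := by
    positivity
  have h5 : 0 ≤ (t - 29 / 50) ^ 2 * (t ^ 3 + 2 * (29 / 50) * t ^ 2 + 3 * (29 / 50) ^ 2 * t +
      4 * (29 / 50) ^ 3) := by positivity
  have hp : 0 ≤ t ^ 3 / 3 + t ^ 4 / 4 + t ^ 5 / 5 := by positivity
  have key : 0 ≤ (t ^ 3 / 3 + t ^ 4 / 4 + t ^ 5 / 5) + (178 / 100 - 4 * t) / 6 := by
    nlinarith [h3, h4, h5]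
  by_cases h : 0 ≤ 178 / 100 - 4 * t
  · have := mul_nonneg hu0.le h
    linarith
  · push Not at h
    have h6 : (178 / 100 - 4 * t) * (1 / 6) ≤ (178 / 100 - 4 * t) * u :=
      mul_le_mul_of_nonpos_left hu1 h.le
    linarith

end CN_

/-- CN -/
theorem p_CN : T_CN := by
  intro ι _ x m hm hx hsum hne hhyp
  by_contra hcon
  push Not at hcon
  set u := 1 / (2 * m) with hu
  have hm0 : 0 < m := by linarith
  have hu0 : 0 < u := by positivity
  have hu1 : u ≤ 1 / 6 := by
    rw [hu, div_le_div_iff₀ (by linarith) (by norm_num)]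
    linarith
  set Φ := ∑ i, CN_.ph (x i) with hΦ
  -- the upper bound of `Φ`
  have hPhi : Φ < 222 / 100 * u := by
    have h1 : Φ = -Real.log (∏ i, (1 + x i)) := by
      rw [Real.log_prod fun i _ => by have := hx i; linarith, hΦ]
      unfold CN_.ph
      rw [sum_sub_distrib, hsum, zero_sub]
    have h2 : Real.log ((1 - u) ^ 2) ≤ Real.log (∏ i, (1 + x i)) :=
      Real.log_le_log (pow_pos (by linarith) 2) hcon
    rw [Real.log_pow] at h2
    have h3 := CN_.log_num hu0 hu1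
    push_cast at h2
    rw [h1]
    linarith
  have hle : ∀ i, CN_.ph (x i) ≤ Φ := fun i =>
    single_le_sum (f := fun i => CN_.ph (x i)) (fun j _ => CN_.ph_nonneg (hx j)) (mem_univ i)
  have hx12 : ∀ i, x i ≤ 12 / 10 := by
    intro i
    by_contra h
    push Not at h
    have h1 := CN_.ph_pade (x := x i) (by linarith)
    have h2 : 4 / 10 ≤ 3 * x i ^ 2 / (6 + 4 * x i) := by
      rw [le_div_iff₀ (by linarith)]
      nlinarith
    have h3 := hle i
    linarith
  have hsq : ∀ i, x i ^ 2 ≤ 36 / 10 * CN_.ph (x i) := by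
    intro i
    rcases le_total 0 (x i) with h | h
    · have h1 := CN_.ph_pade h
      have h2 : x i ^ 2 / (36 / 10) ≤ 3 * x i ^ 2 / (6 + 4 * x i) := by
        rw [div_le_div_iff₀ (by norm_num) (by linarith)]
        nlinarith [hx12 i, sq_nonneg (x i)]
      linarith
    · have h1 := CN_.ph_neg (hx i) h
      nlinarith [sq_nonneg (x i)]
  set E := ∑ i, x i ^ 2 with hE
  have hE0 : 0 < E := by
    obtain ⟨i, hi⟩ := hne
    exact sum_pos' (fun _ _ => sq_nonneg _) ⟨i, mem_univ i, by positivity⟩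
  have hEu : E ≤ 36 / 10 * Φ := by
    rw [hΦ, mul_sum]
    exact sum_le_sum fun i _ => hsq i
  -- the minimum
  obtain ⟨i₀, -, hi₀⟩ := exists_min_image univ x
    (by obtain ⟨i, _⟩ := hne; exact ⟨i, mem_univ i⟩)
  set t := -x i₀ with ht
  have ht1 : t < 1 := by have := hx i₀; linarith
  have hxt : ∀ i, -t ≤ x i := by
    intro i
    have := hi₀ i (mem_univ i)
    rw [ht, neg_neg]
    exact this
  have ht0 : 0 ≤ t := by
    by_contra h
    push Not at h
    have h1 : ∀ i, 0 < x i := fun i => by have := hxt i; linarith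
    have h2 : 0 < ∑ i, x i := sum_pos (fun i _ => h1 i) ⟨i₀, mem_univ _⟩
    linarith
  set C := ∑ i, (max (x i) 0) ^ 3 with hC
  have hC0 : 0 ≤ C := sum_nonneg fun i _ => by positivity
  have hcube : C - t * E ≤ ∑ i, x i ^ 3 := by
    rw [hC, hE, mul_sum, ← sum_sub_distrib]
    refine sum_le_sum fun i _ => ?_
    rcases le_total 0 (x i) with h | h
    · rw [max_eq_left h]
      nlinarith [mul_nonneg ht0 (sq_nonneg (x i))]
    · rw [max_eq_right h]
      nlinarith [mul_nonneg (show 0 ≤ x i + t by linarith [hxt i]) (sq_nonneg (x i))]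
  -- the lower bound of `Φ`
  have hlow : E / 2 - C / 3 + (t ^ 3 / 3 + t ^ 4 / 4 + t ^ 5 / 5) ≤ Φ := by
    classical
    have h1 : ∀ i, x i ^ 2 / 2 - (max (x i) 0) ^ 3 / 3 +
        (if i = i₀ then (t ^ 3 / 3 + t ^ 4 / 4 + t ^ 5 / 5) else 0) ≤ CN_.ph (x i) := by
      intro i
      by_cases hi : i = i₀
      · subst hi
        rw [if_pos rfl, max_eq_right (by linarith)]
        have h2 := CN_.ph_neg5 ht0 ht1
        have h3 : -t = x i := by rw [ht, neg_neg]
        rw [h3] at h2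
        have h4 : t ^ 2 = x i ^ 2 := by rw [ht, neg_sq]
        rw [h4] at h2
        have h5 : (0 : ℝ) ^ 3 = 0 := by norm_num
        rw [h5]
        linarith
      · rw [if_neg hi, add_zero]
        rcases le_total 0 (x i) with h | h
        · rw [max_eq_left h]
          exact CN_.ph_pos h
        · rw [max_eq_right h]
          have h2 := CN_.ph_neg (hx i) h
          have h5 : (0 : ℝ) ^ 3 = 0 := by norm_num
          rw [h5]
          linarith
    have h2 := sum_le_sum fun i (_ : i ∈ (univ : Finset ι)) => h1 i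
    rw [sum_add_distrib, sum_sub_distrib, ← sum_div, ← sum_div, sum_ite_eq' univ i₀,
      if_pos (mem_univ _)] at h2
    exact h2
  -- conclusion
  set w := m * E / 4 with hw
  have hmu : m * u = 1 / 2 := by
    rw [hu]
    field_simp
  have hw1 : w < 1 := by
    have h1 : E < 36 / 10 * (222 / 100 * u) := by linarith
    have h2 : m * E < m * (36 / 10 * (222 / 100 * u)) := mul_lt_mul_of_pos_left h1 hm0
    have h3 : m * (36 / 10 * (222 / 100 * u)) = 36 / 10 * (222 / 100) * (m * u) := by ring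
    rw [h3, hmu] at h2
    rw [hw]
    linarith
  have hwE : (1 - t) * E + C ≤ w * E := by
    have h1 : m / 4 * E ^ 2 = w * E := by rw [hw]; ring
    rw [← h1]
    linarith
  have hwt : 1 - t ≤ w := by
    by_contra h
    push Not at h
    have := mul_lt_mul_of_pos_right h hE0
    linarith
  have hEw : E = 8 * u * w := by
    have h1 : 8 * u * w = 2 * (m * u) * E := by rw [hw]; ring
    rw [h1, hmu]
    ring
  have h1 : 4 * u * (1 - t) ≤ E / 2 - C / 3 := by
    have h2 : C ≤ w * E - (1 - t) * E := by linarith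
    have h3 : 0 ≤ (w - (1 - t)) * (1 / 2 - w / 3) := mul_nonneg (by linarith) (by linarith)
    have h4 : 0 ≤ 8 * u * ((w - (1 - t)) * (1 / 2 - w / 3)) := by positivity
    have h5 : E / 2 - (w * E - (1 - t) * E) / 3 - 4 * u * (1 - t) =
        8 * u * ((w - (1 - t)) * (1 / 2 - w / 3)) := by
      rw [hEw]
      ring
    linarith
  have h2 := CN_.poly ht0 ht1.le hu0 hu1
  linarith

end Pool.Agent.TopDet
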