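import Pool.Agent.TopDet.Targets

set_option autoImplicit false

/-!
# The number of the subsets with the two largest determinants
-/

namespace Pool.Agent.TopDet

theorem p_CNT (h1 : T_CT1) (h2 : T_CT2) : T_CNT := by
  intro m n hm hn
  have h3 := h2 m hm
  rw [← hn] at h3
  obtain ⟨k, rfl⟩ : ∃ k, m = k + 1 := ⟨m - 1, by omega⟩
  obtain rfl : n = 4 * k + 3 := by omega
  have e1 : (4 * k + 3 + 1 - 2) * (4 * k + 3 + 1) ^ (2 * (k + 1) - 1) =
      2 ^ (4 * k + 3) * ((2 * (k + 1) - 1) * (k + 1) ^ (2 * (k + 1) - 1)) := by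
    have a1 : 4 * k + 3 + 1 - 2 = 2 * (2 * k + 1) := by omega
    have a2 : 2 * (k + 1) - 1 = 2 * k + 1 := by omega
    have a3 : 4 * k + 3 + 1 = 4 * (k + 1) := by ring
    have a4 : (2 : ℕ) ^ (4 * k + 3) = 2 * 4 ^ (2 * k + 1) := by
      have : (4 : ℕ) = 2 ^ 2 := by norm_num
      rw [this, ← pow_mul, ← pow_succ']
      congr 1
      ring
    rw [a1, a2, a3, a4, mul_pow]
    ring
  have e2 : (4 * k + 3 + 1) ^ (2 * (k + 1)) = 2 ^ (4 * k + 3) * (2 * (k + 1) ^ (2 * (k + 1))) := by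
    have a3 : 4 * k + 3 + 1 = 4 * (k + 1) := by ring
    have a4 : (2 : ℕ) ^ (4 * k + 3) * 2 = 4 ^ (2 * (k + 1)) := by
      have : (4 : ℕ) = 2 ^ 2 := by norm_num
      rw [this, ← pow_mul, ← pow_succ]
      congr 1
      ring
    rw [a3, mul_pow, ← a4]
    ring
  have hv1 : (2 * (k + 1) - 1) * (k + 1) ^ (2 * (k + 1) - 1) ≠ 0 := by
    apply Nat.mul_ne_zero
    · omega
    · positivity
  have hv2 : 2 * (k + 1) ^ (2 * (k + 1)) ≠ 0 := by positivity
  rw [e1, e2, h1 _ _ hv1, h1 _ _ hv2] at h3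
  have hp : 0 < 2 ^ (4 * k + 3 + 1) * (4 * k + 3 + 1).factorial :=
    Nat.mul_pos (by positivity) (Nat.factorial_pos _)
  apply Nat.eq_of_mul_eq_mul_left hp
  rw [mul_assoc, h3]
  ring

end Pool.Agent.TopDet
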